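import Pool.Agent.Helper83.FQ.BusB
import Pool.Agent.Helper82.FQ.ScaleLaw

/-!
# Project FQ (MP_0f6f3f_an), layer SC: the Busemann cocycle for target data, the scale lemma for two elements

`Tg.log_s`, `Tg.om_eq`: the logarithms of the singular values are linear in the gaps. `tri_reg`: a set of indices `{i | c ≤ cls i l}` is almost triangular in every stratum in which the gap `l` tends to infinity.
`gk_reg`: the hypothesis of the scale lemma for `om`. `scale_two`: the scale lemma for `b n q`, `b n q'`. `scale_sizes`: at a node `u`, from sizes gap by gap to the hypothesis of `hC_of_scale` (helper95).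
-/

set_option autoImplicit false
set_option linter.unusedSectionVars false

open MeasureTheory Filter Topology Matrix

namespace Pool.Agent.Helper83.FQ

open Pool.Agent.Helper84 Pool.Agent.Helper84.GN Pool.Agent.Helper84.GN.S3 Pool.Agent.Helper84.GN.S3.X
open Pool.Agent.Helper84.NI Pool.Agent.Helper84.GVN Pool.Agent.Helper90.RK
open Pool.Agent.Helper96.RK Pool.Agent.Helper66.FR Pool.Agent.Helper84.FR Pool.Agent.Helper55.FR
open Pool.Agent.Helper78.BM Pool.Agent.Helper43.FQ Pool.Agent.Helper82.FQ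

section Tgt

variable {G : Type} [Group G] {N : ℕ} {P : PH G N} {r : ℕ} (A : Tg P r)

/-- The coefficient of the gap `l` in the logarithm of the `i`-th singular value. -/
noncomputable def cf (i : Fin N) (l : Fin r) : ℝ := (A.cls i l : ℝ) - (∑ j, (A.cls j l : ℝ)) / N

theorem log_s (γ : G) (i : Fin N) : Real.log (A.s γ i) = ∑ l, cf A i l * A.gap γ l := by
  have hN : (N : ℝ) ≠ 0 := by
    have h1 : 0 < N := Nat.pos_of_ne_zero fun h => by
      subst h
      exact i.elim0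
    exact_mod_cast h1.ne'
  have h1 : ∑ j, Real.log (A.s γ j) = 0 := by
    rw [← Real.log_prod fun j _ => (A.pos γ j).ne']
    have h2 : ∏ j, A.s γ j = 1 := A.toSu.prod_s γ
    rw [h2, Real.log_one]
  have h2 : ∀ j, Real.log (A.s γ i) = Real.log (A.s γ j) + ∑ l, ((A.cls i l - A.cls j l : ℤ) : ℝ) * A.gap γ l := fun j => by
    conv_lhs => rw [A.ratio γ i j]
    rw [Real.log_mul (A.pos γ j).ne' (Real.exp_pos _).ne', Real.log_exp]
  have h3 : (N : ℝ) * Real.log (A.s γ i) = ∑ j, ∑ l, ((A.cls i l - A.cls j l : ℤ) : ℝ) * A.gap γ l := by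
    have h4 : ∑ j : Fin N, Real.log (A.s γ i) = ∑ j, (Real.log (A.s γ j) + ∑ l, ((A.cls i l - A.cls j l : ℤ) : ℝ) * A.gap γ l) :=
      Finset.sum_congr rfl fun j _ => h2 j
    rw [Finset.sum_const, Finset.card_univ, Fintype.card_fin, nsmul_eq_mul, Finset.sum_add_distrib, h1, zero_add] at h4
    exact h4
  have h4 : (N : ℝ) * ∑ l, cf A i l * A.gap γ l = ∑ j, ∑ l, ((A.cls i l - A.cls j l : ℤ) : ℝ) * A.gap γ l := by
    rw [Finset.sum_comm, Finset.mul_sum]
    refine Finset.sum_congr rfl fun l _ => ?_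
    rw [← Finset.sum_mul, ← mul_assoc]
    congr 1
    unfold cf
    push_cast
    rw [Finset.sum_sub_distrib, Finset.sum_const, Finset.card_univ, Fintype.card_fin, nsmul_eq_mul]
    field_simp
  exact mul_left_cancel₀ hN (h3.trans h4.symm)

/-- The set of indices with coefficient at least `c` at the node `l`. -/
def Tc (c : ℤ) (l : Fin r) (i : Fin N) : Prop := c ≤ A.cls i l

instance (c : ℤ) (l : Fin r) : DecidablePred (Tc A c l) := fun i => inferInstanceAs (Decidable (c ≤ A.cls i l))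

/-- The coefficients of `om` in the gaps. -/
noncomputable def bet (T : Fin N → Prop) [DecidablePred T] (l : Fin r) : ℝ := ∑ i : {i // T i}, cf A i l

theorem om_eq (T : Fin N → Prop) [DecidablePred T] (γ : G) : om A.toSu T γ = ∑ l, bet A T l * A.gap γ l := by
  unfold om bet
  have h1 : ∀ i : {i // T i}, Real.log (A.toSu.s γ i) = ∑ l, cf A i l * A.gap γ l := fun i => log_s A γ i
  simp only [h1, Finset.sum_mul]
  exact Finset.sum_comm

theorem tri_reg (J : Finset (Fin r)) {l : Fin r} (hl : l ∉ J) (c : ℤ) : Tri A.toSu (Tc A c l) (A.reg J).F where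
  m k n i j hi hj := (A.asyR 1 k l i j (lt_of_lt_of_le (not_le.1 hj) hi)).mono_left (A.FF_le_comap J n hl)
  n k n i j hi hj := (A.asyL k l i j (lt_of_lt_of_le (not_le.1 hi) hj)).mono_left (A.FF_le_comap J n hl)

/-- **The hypothesis of the scale lemma.** -/
theorem gk_reg (J : Finset (Fin r)) {l : Fin r} (hl : l ∉ J) (c : ℤ) {pd : PD G} (hp : UCp A.toSu (Tc A c l) pd) (t : ℝ) :
    ∃ g, Gk (A.reg J) pd (fun γ => Complex.exp (((t * om A.toSu (Tc A c l) γ : ℝ) : ℂ) * Complex.I)) g :=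
  ⟨_, gk_om (tri_reg A J hl c) hp t⟩

end Tgt

section Law

variable {G1 X G Λ : Type} [Group G1] [TopologicalSpace G1] [IsTopologicalGroup G1] [MeasurableSpace X] [MulAction G1 X]
  [MeasurableConstSMul G1 X] [Group G] [Group Λ] [Countable Λ] {μ : Measure X} [SMulInvariantMeasure G1 X μ]
  [IsProbabilityMeasure μ] {a : Cocy G1 X Λ} {E : Emb Λ G} {R : Reg G} {pd : PD G} {b : ℕ → G1}

theorem norm_ind_mono {s t : Set G} (h : s ⊆ t) (ξ : XL μ (L2 G)) : ‖cl μ (ind ℂ s) ξ‖ ≤ ‖cl μ (ind ℂ t) ξ‖ := by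
  classical
  have e : ind ℂ s = (ind ℂ s).comp (ind ℂ t) := by
    ext f : 1
    refine l2_ext fun i => ?_
    rw [ContinuousLinearMap.comp_apply, ind_apply, ind_apply, ind_apply]
    by_cases hi : i ∈ s
    · rw [if_pos hi, if_pos hi, if_pos (h hi)]
    · rw [if_neg hi, if_neg hi]
  rw [e, cl_comp]
  refine (norm_cl_le_of (C := 1) zero_le_one (fun v => ?_) _).trans (by rw [one_mul])
  rw [one_mul]
  exact norm_ind2 s v

/-- **The scale lemma** for two elements of the commutator subgroup of the centraliser. -/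
theorem scale_two (B : BMap μ a E R pd b) (hp : B.p = 1) (hP : PLf R pd) (hE : ErgU μ a E (Ctr b))
    (h3 : Tendsto (fun g : G1 => μ {x | a.a g x ≠ 1}) (𝓝 1) (𝓝 0)) {h : G → ℝ}
    (hG : ∀ t : ℝ, ∃ g, Gk R pd (fun γ => Complex.exp (((t * h γ : ℝ) : ℂ) * Complex.I)) g) {q q' : cen b}
    (hq : q ∈ commutator (cen b)) (hq' : q' ∈ commutator (cen b)) {m d : ℕ → ℝ} {C : ℝ} (hC : 0 < C)
    (h1 : ∀ᶠ n in (hyperfilter ℕ : Filter ℕ), ‖cl μ (ind ℂ {γ | C < |h γ - m n|}) (zx μ a E (b n * (q' : G1)))‖ ≤ 1 / 10)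
    (h2 : ∀ᶠ n in (hyperfilter ℕ : Filter ℕ),
      ‖cl μ (ind ℂ {γ | C < |h γ - (m n + d n)|}) (zx μ a E (b n * (q : G1)))‖ ≤ 1 / 10)
    (hd : ∃ D, ∀ᶠ n in (hyperfilter ℕ : Filter ℕ), |d n| ≤ D) :
    ∀ᶠ n in (hyperfilter ℕ : Filter ℕ), |d n| ≤ 100 * C := by
  obtain ⟨D, hD⟩ := hd
  obtain ⟨x, -, hx⟩ : ∃ x ∈ Set.Icc (-D) D, Tendsto d (hyperfilter ℕ : Filter ℕ) (𝓝 x) := by
    have hc : IsCompact (Set.Icc (-D) D) := isCompact_Icc
    have hmem : Set.Icc (-D) D ∈ (hyperfilter ℕ).map d := by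
      change ∀ᶠ n in (hyperfilter ℕ : Filter ℕ), d n ∈ Set.Icc (-D) D
      filter_upwards [hD] with n hn
      exact abs_le.1 hn
    obtain ⟨x, hx, hx2⟩ := hc.ultrafilter_le_nhds ((hyperfilter ℕ).map d) (le_principal_iff.2 hmem)
    exact ⟨x, hx, hx2⟩
  have hx20 : |x| ≤ 20 * C := by
    by_contra hcon
    push Not at hcon
    have hx0 : 0 < |x| := lt_trans (by positivity) hcon
    have hxne : x ≠ 0 := abs_pos.1 hx0
    obtain ⟨g, hg⟩ := hG (Real.pi / x)
    have k0 := (tendsto_diff B hp hg hP hE h3 hq).sub (tendsto_diff B hp hg hP hE h3 hq')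
    rw [sub_zero] at k0
    set t : ℝ := Real.pi / x with ht
    have k1 : Tendsto (fun n => inner ℂ (zx μ a E (b n * (q : G1)))
        (cl μ (mulop fun γ => Complex.exp (((t * h γ : ℝ) : ℂ) * Complex.I)) (zx μ a E (b n * (q : G1)))) -
      inner ℂ (zx μ a E (b n * (q' : G1))) (cl μ (mulop fun γ => Complex.exp (((t * h γ : ℝ) : ℂ) * Complex.I))
        (zx μ a E (b n * (q' : G1))))) (hyperfilter ℕ : Filter ℕ) (𝓝 0) := by
      refine k0.congr fun n => ?_
      ring
    have htC : |t| * C ≤ Real.pi / 20 := by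
      rw [ht, abs_div, abs_of_pos Real.pi_pos, div_mul_eq_mul_div, div_le_div_iff₀ hx0 (by norm_num)]
      nlinarith [Real.pi_pos]
    have hpi : Real.pi / 20 ≤ 1 / 5 := by linarith [Real.pi_lt_four]
    have key : ∀ (ξ : XL μ (L2 G)) (c : ℝ), ‖ξ‖ = 1 → ‖cl μ (ind ℂ {γ | C < |h γ - c|}) ξ‖ ≤ 1 / 10 →
        ‖inner ℂ ξ (cl μ (mulop fun γ => Complex.exp (((t * h γ : ℝ) : ℂ) * Complex.I)) ξ) -
          Complex.exp (((t * c : ℝ) : ℂ) * Complex.I)‖ ≤ 2 / 5 := by
      intro ξ c hξ hc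
      have h5 := conc (μ := μ) hξ (F := fun γ => Complex.exp (((t * h γ : ℝ) : ℂ) * Complex.I))
        (fun γ => (Complex.norm_exp_ofReal_mul_I _).le) (z := Complex.exp (((t * c : ℝ) : ℂ) * Complex.I))
        (Complex.norm_exp_ofReal_mul_I _).le (S := {γ | C < |h γ - c|}) (η := 1 / 5) (by norm_num) (fun γ hγ => ?_) hc
      · exact h5.trans (by norm_num)
      · have hγ' : |h γ - c| ≤ C := not_lt.1 hγ
        refine (norm_exp_sub_le _ _).trans ?_
        rw [← mul_sub, abs_mul]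
        calc |t| * |h γ - c| ≤ |t| * C := mul_le_mul_of_nonneg_left hγ' (abs_nonneg _)
          _ ≤ 1 / 5 := htC.trans hpi
    have k2 : ∀ᶠ n in (hyperfilter ℕ : Filter ℕ), ‖Complex.exp (((t * (d n) : ℝ) : ℂ) * Complex.I) - 1‖ ≤ 4 / 5 +
        ‖inner ℂ (zx μ a E (b n * (q : G1))) (cl μ (mulop fun γ => Complex.exp (((t * h γ : ℝ) : ℂ) * Complex.I))
          (zx μ a E (b n * (q : G1)))) - inner ℂ (zx μ a E (b n * (q' : G1))) (cl μ (mulop fun γ =>
          Complex.exp (((t * h γ : ℝ) : ℂ) * Complex.I)) (zx μ a E (b n * (q' : G1))))‖ := by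
      filter_upwards [h1, h2] with n hn1 hn2
      have e1 := key _ _ (norm_zx (b n * (q' : G1))) hn1
      have e2 := key _ _ (norm_zx (b n * (q : G1))) hn2
      set A := inner ℂ (zx μ a E (b n * (q : G1))) (cl μ (mulop fun γ => Complex.exp (((t * h γ : ℝ) : ℂ) * Complex.I))
          (zx μ a E (b n * (q : G1))))
      set A' := inner ℂ (zx μ a E (b n * (q' : G1))) (cl μ (mulop fun γ => Complex.exp (((t * h γ : ℝ) : ℂ) * Complex.I))
        (zx μ a E (b n * (q' : G1))))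
      have e3 : Complex.exp (((t * (m n + d n) : ℝ) : ℂ) * Complex.I) =
          Complex.exp (((t * m n : ℝ) : ℂ) * Complex.I) * Complex.exp (((t * (d n) : ℝ) : ℂ) * Complex.I) := by
        rw [← Complex.exp_add]
        congr 1
        push_cast
        ring
      have e4 : ‖Complex.exp (((t * (d n) : ℝ) : ℂ) * Complex.I) - 1‖ =
          ‖Complex.exp (((t * (m n + d n) : ℝ) : ℂ) * Complex.I) - Complex.exp (((t * m n : ℝ) : ℂ) * Complex.I)‖ := by
        have e5 : Complex.exp (((t * (m n + d n) : ℝ) : ℂ) * Complex.I) - Complex.exp (((t * m n : ℝ) : ℂ) * Complex.I) =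
            Complex.exp (((t * m n : ℝ) : ℂ) * Complex.I) * (Complex.exp (((t * (d n) : ℝ) : ℂ) * Complex.I) - 1) := by
          rw [e3]
          ring
        rw [e5, norm_mul, Complex.norm_exp_ofReal_mul_I, one_mul]
      rw [e4]
      have e6 : Complex.exp (((t * (m n + d n) : ℝ) : ℂ) * Complex.I) - Complex.exp (((t * m n : ℝ) : ℂ) * Complex.I) =
          (A - A') - (A - Complex.exp (((t * (m n + d n) : ℝ) : ℂ) * Complex.I)) +
            (A' - Complex.exp (((t * m n : ℝ) : ℂ) * Complex.I)) := by ring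
      rw [e6]
      refine (norm_add_le _ _).trans ?_
      have e7 := norm_sub_le (A - A') (A - Complex.exp (((t * (m n + d n) : ℝ) : ℂ) * Complex.I))
      linarith
    have k3 : Tendsto (fun n => ‖Complex.exp (((t * (d n) : ℝ) : ℂ) * Complex.I) - 1‖) (hyperfilter ℕ : Filter ℕ)
        (𝓝 ‖Complex.exp (((t * x : ℝ) : ℂ) * Complex.I) - 1‖) := by
      have hcont : Continuous fun y : ℝ => ‖Complex.exp (((t * y : ℝ) : ℂ) * Complex.I) - 1‖ := by fun_prop
      exact (hcont.tendsto x).comp hx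
    have k4 := (k1.norm).const_add (4 / 5)
    rw [norm_zero, add_zero] at k4
    have k5 := le_of_tendsto_of_tendsto k3 k4 k2
    have e8 : t * x = Real.pi := by
      rw [ht, div_mul_cancel₀ _ hxne]
    rw [e8, Complex.exp_pi_mul_I] at k5
    norm_num at k5
  have h5 : ∀ᶠ y in 𝓝 x, |y| < 100 * C := by
    have : |x| < 100 * C := by linarith
    exact (continuous_abs.tendsto x).eventually (gt_mem_nhds this)
  filter_upwards [hx.eventually h5] with n hn
  exact hn.le

/-- Sizes gap by gap at regular elements: the law of `V_g 1` lives near the element with gaps `f i (g1 g i)`. -/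
def Sizes (μ : Measure X) [IsProbabilityMeasure μ] [SMulInvariantMeasure G1 X μ] (a : Cocy G1 X Λ) (E : Emb Λ G) {ι : Type}
    (g1 : G1 → ι → ℝ) (g2 : G → ι → ℝ) (f : ι → ℝ → ℝ) : Prop :=
  ∀ ε : ℝ, 0 < ε → ∃ R C : ℝ, ∀ g : G1, (∀ i, R ≤ g1 g i) →
    ‖cl μ (ind ℂ {γ | ∃ i, C < |g2 γ i - f i (g1 g i)|}) (zx μ a E g)‖ ≤ ε

/-- **From sizes gap by gap to the hypothesis of `hC_of_scale`, at a node `u`.** `V` is the span of the coroots `≠ u`, `g1 (b n q) i = al i v + n δ_{iu}` for suitable `q`. -/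
theorem scale_sizes (B : BMap μ a E R pd b) (hp : B.p = 1) (hP : PLf R pd) (hE : ErgU μ a E (Ctr b))
    (h3 : Tendsto (fun g : G1 => μ {x | a.a g x ≠ 1}) (𝓝 1) (𝓝 0)) {ι : Type} [Fintype ι] [DecidableEq ι]
    {g1 : G1 → ι → ℝ} {g2 : G → ι → ℝ} {f : ι → ℝ → ℝ} (hs : Sizes μ a E g1 g2 f) {D : ℝ} (hf : ∀ i t, 0 ≤ t → |f i t - t| ≤ D)
    (β : ι → ℝ) (hG : ∀ t : ℝ, ∃ g, Gk R pd (fun γ => Complex.exp (((t * ∑ i, β i * g2 γ i : ℝ) : ℂ) * Complex.I)) g)
    {V : Type} [AddCommGroup V] (W : AddSubgroup V) (al : ι → V → ℝ) (hal : ∀ i x y, al i (x + y) = al i x + al i y) (u : ι)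
    (hW : ∀ c : ℝ, ∃ v ∈ W, ∀ i, i ≠ u → al i v = c)
    (hq : ∀ v ∈ W, (∀ i, i ≠ u → 0 ≤ al i v) → ∃ q ∈ commutator (cen b), ∀ᶠ n : ℕ in atTop, ∀ i,
      g1 (b n * (q : G1)) i = al i v + if i = u then (n : ℝ) else 0) :
    ∃ (m : ℕ → ℝ) (C : ℝ), ∀ v ∈ W, (∀ i, i ≠ u → 0 ≤ al i v) →
      ∀ᶠ n : ℕ in (hyperfilter ℕ : Filter ℕ), |∑ i, β i * f i (al i v + if i = u then (n : ℝ) else 0) - m n| ≤ C := by
  have hle : (hyperfilter ℕ : Filter ℕ) ≤ atTop := Nat.hyperfilter_le_atTop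
  obtain ⟨R₀, C₀, hRC⟩ := hs (1 / 10) (by norm_num)
  set R₁ := max R₀ 0 with hR₁
  have hR1 : 0 ≤ R₁ := le_max_right _ _
  obtain ⟨v₀, hv₀W, hv₀⟩ := hW R₁
  set F : V → ℕ → ℝ := fun v n => ∑ i, β i * f i (al i v + if i = u then (n : ℝ) else 0) with hF
  set bb : ℝ := ∑ i, |β i| with hbb
  have hbb0 : 0 ≤ bb := Finset.sum_nonneg fun i _ => abs_nonneg _
  set C₁ : ℝ := bb * |C₀| + 1 with hC₁
  have hC1 : 0 < C₁ := by positivity
  -- the argument of the gap `u` is nonnegative and large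
  have hbig : ∀ v : V, ∀ K : ℝ, ∀ᶠ n : ℕ in (hyperfilter ℕ : Filter ℕ), K ≤ al u v + n := fun v K => by
    have h1 : Tendsto (fun n : ℕ => (n : ℝ)) (hyperfilter ℕ : Filter ℕ) atTop := tendsto_natCast_atTop_atTop.mono_left hle
    filter_upwards [h1.eventually (eventually_ge_atTop (K - al u v))] with n hn
    linarith
  -- concentration of `∑ β g2`
  have hconc : ∀ v ∈ W, (∀ i, i ≠ u → R₁ ≤ al i v) → ∃ q ∈ commutator (cen b), ∀ᶠ n : ℕ in (hyperfilter ℕ : Filter ℕ),
      ‖cl μ (ind ℂ {γ | C₁ < |∑ i, β i * g2 γ i - F v n|}) (zx μ a E (b n * (q : G1)))‖ ≤ 1 / 10 := by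
    intro v hv hvR
    obtain ⟨q, hqc, hqn⟩ := hq v hv fun i hi => hR1.trans (hvR i hi)
    refine ⟨q, hqc, ?_⟩
    filter_upwards [hqn.filter_mono hle, hbig v R₁] with n hn hn2
    have h4 : ∀ i, R₀ ≤ g1 (b n * (q : G1)) i := fun i => by
      rw [hn i]
      by_cases hi : i = u
      · rw [if_pos hi, hi]
        exact (le_max_left _ _).trans hn2
      · rw [if_neg hi, add_zero]
        exact (le_max_left _ _).trans (hvR i hi)
    refine le_trans ?_ (hRC _ h4)
    have hsub : {γ | C₁ < |∑ i, β i * g2 γ i - F v n|} ⊆ {γ | ∃ i, C₀ < |g2 γ i - f i (g1 (b n * (q : G1)) i)|} := by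
      intro γ hγ
      by_contra hcon
      have h5 : ∀ i, |g2 γ i - f i (al i v + if i = u then (n : ℝ) else 0)| ≤ C₀ := fun i => by
        by_contra h6
        exact hcon ⟨i, by rw [hn i]; exact not_le.1 h6⟩
      have h6 : |∑ i, β i * g2 γ i - F v n| ≤ bb * |C₀| := by
        rw [hF]
        simp only
        rw [← Finset.sum_sub_distrib, hbb, Finset.sum_mul]
        refine (Finset.abs_sum_le_sum_abs _ _).trans (Finset.sum_le_sum fun i _ => ?_)
        rw [← mul_sub, abs_mul]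
        exact mul_le_mul_of_nonneg_left ((h5 i).trans (le_abs_self _)) (abs_nonneg _)
      have h7 : C₁ < |∑ i, β i * g2 γ i - F v n| := hγ
      linarith
    exact norm_ind_mono hsub _
  obtain ⟨q₀, hq₀c, hq₀⟩ := hconc v₀ hv₀W fun i hi => (hv₀ i hi).ge
  refine ⟨fun n => F v₀ n, 100 * C₁ + ∑ i, |β i| * (2 * D + |al i v₀|), fun v hv hv0 => ?_⟩
  obtain ⟨q, hqc, hqn⟩ := hconc (v + v₀) (W.add_mem hv hv₀W) fun i hi => by
    rw [hal, hv₀ i hi]
    linarith [hv0 i hi]
  -- the differences are bounded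
  have hFd : ∀ w w' : V, (∀ i, i ≠ u → 0 ≤ al i w) → (∀ i, i ≠ u → 0 ≤ al i w') → ∀ᶠ n : ℕ in (hyperfilter ℕ : Filter ℕ),
      |F w n - F w' n| ≤ ∑ i, |β i| * (2 * D + |al i w - al i w'|) := by
    intro w w' hw hw'
    filter_upwards [hbig w 0, hbig w' 0] with n hn hn'
    rw [hF]
    simp only
    rw [← Finset.sum_sub_distrib]
    refine (Finset.abs_sum_le_sum_abs _ _).trans (Finset.sum_le_sum fun i _ => ?_)
    rw [← mul_sub, abs_mul]
    refine mul_le_mul_of_nonneg_left ?_ (abs_nonneg _)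
    have h5 : 0 ≤ al i w + if i = u then (n : ℝ) else 0 := by
      by_cases hi : i = u
      · rw [if_pos hi, hi]
        exact hn
      · rw [if_neg hi, add_zero]
        exact hw i hi
    have h6 : 0 ≤ al i w' + if i = u then (n : ℝ) else 0 := by
      by_cases hi : i = u
      · rw [if_pos hi, hi]
        exact hn'
      · rw [if_neg hi, add_zero]
        exact hw' i hi
    have h7 := abs_le.1 (hf i _ h5)
    have h8 := abs_le.1 (hf i _ h6)
    have h9 := neg_abs_le (al i w - al i w')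
    have h10 := le_abs_self (al i w - al i w')
    rw [abs_le]
    constructor <;> linarith [h7.1, h7.2, h8.1, h8.2]
  have hvv : ∀ i, i ≠ u → 0 ≤ al i (v + v₀) := fun i hi => by
    rw [hal, hv₀ i hi]
    linarith [hv0 i hi]
  have hv00 : ∀ i, i ≠ u → 0 ≤ al i v₀ := fun i hi => by
    rw [hv₀ i hi]
    exact hR1
  have key := scale_two B hp hP hE h3 (h := fun γ => ∑ i, β i * g2 γ i) hG hqc hq₀c (m := fun n => F v₀ n)
    (d := fun n => F (v + v₀) n - F v₀ n) hC1 hq₀ (by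
      refine hqn.mono fun n hn => ?_
      have e : F v₀ n + (F (v + v₀) n - F v₀ n) = F (v + v₀) n := by ring
      simp only [e]
      exact hn) ⟨_, hFd (v + v₀) v₀ hvv hv00⟩
  filter_upwards [key, hFd v (v + v₀) hv0 hvv] with n hn1 hn2
  have e1 : ∀ i, al i v - al i (v + v₀) = - al i v₀ := fun i => by
    rw [hal]
    ring
  simp only [e1, abs_neg] at hn2
  have h5 := abs_sub_le (F v n) (F (v + v₀) n) (F v₀ n)
  linarith

end Law

end Pool.Agent.Helper83.FQ
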