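import Pool.Agent.Helper83.FQ.Fin
import Pool.Agent.Helper84.GD.PD
import Pool.Agent.Helper55.FQ.Defs

/-!
# Project FQ (MP_0f6f3f_an), layer SC: the form of the assembly

`ucx_pd`: the positions `D.pd j Γ` control the lines of the right data. `sc_gr`: with helper55's context `Gr`, boundary maps at all the nodes, sizes and slopes: the hypothesis `h` of `hC_of_scale` (`fq_alg`) with `β u = D'.top u`.
`top_cor`: for `Gr`, the functional `top u` vanishes on the coroots `≠ u` (from the Cartan decomposition and the reflections), `top_cor_ne`.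
-/

set_option autoImplicit false
set_option linter.unusedSectionVars false

open MeasureTheory Filter Topology Matrix

namespace Pool.Agent.Helper83.FQ

open Pool.Agent.Helper84 Pool.Agent.Helper84.GN Pool.Agent.Helper84.GN.S3 Pool.Agent.Helper84.GN.S3.X
open Pool.Agent.Helper84.NI Pool.Agent.Helper84.GVN Pool.Agent.Helper90.RK
open Pool.Agent.Helper96.RK Pool.Agent.Helper66.FR Pool.Agent.Helper84.FR Pool.Agent.Helper55.FR
open Pool.Agent.Helper78.BM Pool.Agent.Helper82.FQ Pool.Agent.Helper84.GDL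
open Pool.Agent.Helper96.SA Pool.Agent.Helper96.TO Pool.Agent.Helper69.SLN Pool.Agent.Helper77.FQ Pool.Agent.Helper25.AE
  Pool.Agent.Helper95.FQ Pool.Agent.Helper90.OB Pool.Agent.Helper55.FQ
open Pool.Agent.Helper35.TZ (autC isAdj_autC)

section Pd

open scoped Matrix.Norms.L2Operator

variable {𝔾 : Type} [Group 𝔾] [TopologicalSpace 𝔾] [IsTopologicalGroup 𝔾] {ι : Type} [Fintype ι] [DecidableEq ι] (D : GD 𝔾 ι)

theorem entry_norm {n : ℕ} (M : Matrix (Fin n) (Fin n) ℝ) (i j : Fin n) : |M i j| ≤ ‖M‖ := by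
  have h3 := Matrix.l2_opNorm_mulVec M (PiLp.single 2 j (1 : ℝ) : EuclideanSpace ℝ (Fin n))
  rw [PiLp.norm_single, norm_one, mul_one] at h3
  refine le_trans ?_ h3
  refine le_trans (le_of_eq ?_) (PiLp.norm_apply_le _ i)
  rw [Real.norm_eq_abs]
  congr 1
  simp

theorem ucx_of (j : ι) {G : Type} [Group G] (φ : G →* 𝔾) : UCx D φ j (D.pdOf j φ) := by
  intro ε hε
  refine ⟨ε, hε, fun γ γ' hd a b => ?_⟩
  rw [GD.pdOf_d] at hd
  refine le_trans ?_ hd.le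
  have h1 := entry_norm (D.pj j (φ γ) - D.pj j (φ γ')) a b
  rw [GD.pj_eq, GD.pj_eq, Matrix.sub_apply, vecMulVec_apply, vecMulVec_apply] at h1
  rw [GD.pj_eq, GD.pj_eq]
  exact h1

theorem ucx_pd (j : ι) (Γ : Subgroup 𝔾) : UCx D Γ.subtype j (D.pd j Γ) := ucx_of D j Γ.subtype

end Pd

section Asm

variable {L L' : Type} [LieRing L] [LieAlgebra ℝ L] [LieRing L'] [LieAlgebra ℝ L'] {N N' : ℕ} {r : ℕ}
  {θ : L ≃ₗ⁅ℝ⁆ L} {θ' : L' ≃ₗ⁅ℝ⁆ L'} {b : Module.Basis (Fin N) ℝ L} {b' : Module.Basis (Fin N') ℝ L'}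
  {A : Submodule ℝ L} {A' : Submodule ℝ L'} {τ : Module.Dual ℝ A ≃ₗ[ℝ] A} {τ' : Module.Dual ℝ A' ≃ₗ[ℝ] A'}
  {al : Fin r → Module.Dual ℝ A} {al' : Fin r → Module.Dual ℝ A'} {W : Fin r → A} {W' : Fin r → A'}
  {D : GD (autC b) (Fin r)} {D' : GD (autC b') (Fin r)}

/-- The coordinates given by the coweights. -/
theorem coord (G : Gr θ b A τ al W D) (H : A) : H = ∑ i, al i H • W i := by
  rw [← sub_eq_zero]
  refine eq_zero_of_al G.s.h G.s.hS fun i => ?_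
  rw [map_sub, map_sum]
  simp_rw [map_smul, G.hW, smul_eq_mul, mul_ite, mul_one, mul_zero]
  rw [Finset.sum_ite_eq, if_pos (Finset.mem_univ i), sub_self]

variable {Γ : Subgroup (autC b)} {Λ : Subgroup (autC b')} [Countable Γ]
  {X : Type} [MeasurableSpace X] [MulAction (autC b) X] [MeasurableConstSMul (autC b) X] {μ : Measure X}
  [SMulInvariantMeasure (autC b) X μ] [IsProbabilityMeasure μ] {a : Cocy (autC b) X Γ} {E : Emb Γ Λ}

/-- **Layer SC in the form of the assembly**: the hypothesis `h` of `hC_of_scale` / `fq_alg`. -/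
theorem sc_gr [LieAlgebra.IsSimple ℝ L] (G : Gr θ b A τ al W D) {R : Fin r → Reg Λ}
    (hR : ∀ u n, Tendsto (fun k : Λ => D'.mu (k : autC b') u) ((R u).F n) atTop)
    (B : ∀ u, BMap μ a E (R u) (D'.pd u Λ) (wn D u)) (hp : ∀ u, (B u).p = 1) (hE : ∀ u, ErgU μ a E (Ctr (wn D u)))
    (h3 : Tendsto (fun g : autC b => μ {x | a.a g x ≠ 1}) (𝓝 1) (𝓝 0)) {f : Fin r → ℝ → ℝ}
    (hs : Sizes μ a E D.mu (gG D' Λ) f) (hf : ∃ C : ℝ, ∀ i t, 0 ≤ t → |f i t - t| ≤ C) :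
    ∀ u, ∃ l : Filter ℕ, l.NeBot ∧ l ≤ atTop ∧ ∃ (m : ℕ → ℝ) (C : ℝ), ∀ v : A, (∃ r : {k : Fin r // k ≠ u} → ℝ, v = ∑ k, r k • τ (al k)) →
      (∀ i, i ≠ u → 0 ≤ al i v) → ∀ᶠ n : ℕ in l, |∑ i, D'.top u i * f i (al i v + if i = u then (n : ℝ) else 0) - m n| ≤ C := by
  intro u
  obtain ⟨C, hf⟩ := hf
  refine ⟨hyperfilter ℕ, inferInstance, Nat.hyperfilter_le_atTop, ?_⟩
  have e : wn D u = fun n : ℕ => eaG (isAdj_autC b) W (Pi.single u (n : ℝ)) := funext fun n => G.ea _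
  have B' := B u
  have hp' := hp u
  have hE' := hE u
  have key : ∀ (bb : ℕ → autC b), bb = (fun n : ℕ => eaG (isAdj_autC b) W (Pi.single u (n : ℝ))) →
      ∀ B1 : BMap μ a E (R u) (D'.pd u Λ) bb, B1.p = 1 → ErgU μ a E (Ctr bb) →
      ∃ (m : ℕ → ℝ) (C : ℝ), ∀ v : A, (∃ r : {k : Fin r // k ≠ u} → ℝ, v = ∑ k, r k • τ (al k)) →
      (∀ i, i ≠ u → 0 ≤ al i v) → ∀ᶠ n : ℕ in (hyperfilter ℕ : Filter ℕ),
        |∑ i, D'.top u i * f i (al i v + if i = u then (n : ℝ) else 0) - m n| ≤ C := by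
    rintro bb rfl B1 hp1 hE1
    exact sc_node G.s (isAdj_autC b) G.hW (coord G) (g1 := D.mu) (fun c hc => by rw [← G.ea, GD.mu_ea D hc]) u B1 hp1
      (D'.plf u Λ (R u) (hR u)) hE1 h3 hs hf (D'.top u) fun t => ⟨_, gk_tw D' (hR u) (ucx_pd D' u Λ) t⟩
  exact key _ e (B u) (hp u) (hE u)

end Asm

end Pool.Agent.Helper83.FQ
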