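import Pool.Agent.Helper43.FQ.Tg

/-!
# Project FQ (MP_0f6f3f_an), layer SC: the Busemann cocycle, linear algebra

`blk T M`: the block of `M` with indices in `T`. `iT T`: the coordinate projection. `det_blk_conj`: `det ((Uᴴ A U)_TT) = det (1 - p + p A p)`, `p = U 1_T Uᴴ`: the determinant of the compression
depends only on the projection `p`. `tendsto_det`: determinants of bounded families of matrices with the same limits. `exists_lip`: a continuous nonvanishing function of the projections is uniformly continuous and bounded below.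
-/

set_option autoImplicit false
set_option linter.unusedSectionVars false

open Filter Topology Matrix
open scoped ComplexOrder

namespace Pool.Agent.Helper83.FQ

open Pool.Agent.Helper84.NI Pool.Agent.Helper90.RK Pool.Agent.Helper84.GN Pool.Agent.Helper43.FQ Pool.Agent.Helper96.RK

section Det

variable {N : ℕ} (T : Fin N → Prop) [DecidablePred T]

/-- The block of `T`. -/
def blk (M : MN N) : Matrix {i // T i} {i // T i} ℂ := M.toBlock T T

/-- The coordinate projection of `T`. -/
def iT : MN N := diagonal fun i => if T i then (1 : ℂ) else 0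

theorem iT_conj : (iT T)ᴴ = iT T := by
  unfold iT
  rw [Matrix.diagonal_conjTranspose]
  congr 1
  funext i
  rw [Pi.star_apply]
  split_ifs <;> simp

theorem iT_sq : iT T * iT T = iT T := by
  unfold iT
  rw [Matrix.diagonal_mul_diagonal]
  congr 1
  funext i
  split_ifs <;> simp

theorem iT_mul_apply (M : MN N) (i j : Fin N) : (iT T * M) i j = if T i then M i j else 0 := by
  unfold iT
  rw [Matrix.diagonal_mul]
  split_ifs <;> simp

theorem mul_iT_apply (M : MN N) (i j : Fin N) : (M * iT T) i j = if T j then M i j else 0 := by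
  unfold iT
  rw [Matrix.mul_diagonal]
  split_ifs <;> simp

theorem det_blk (M : MN N) : (1 - iT T + iT T * M * iT T).det = (blk T M).det := by
  have h1 : ∀ i, ¬ T i → ∀ j, T j → (1 - iT T + iT T * M * iT T) i j = 0 := by
    intro i hi j hj
    have hij : i ≠ j := fun e => hi (e ▸ hj)
    rw [Matrix.add_apply, Matrix.sub_apply, mul_iT_apply, iT_mul_apply, if_pos hj, if_neg hi, Matrix.one_apply_ne hij]
    unfold iT
    rw [Matrix.diagonal_apply_ne _ hij]
    simp
  rw [Matrix.twoBlockTriangular_det _ T h1]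
  have h2 : Matrix.toSquareBlockProp (1 - iT T + iT T * M * iT T) T = blk T M := by
    ext ⟨i, hi⟩ ⟨j, hj⟩
    change (1 - iT T + iT T * M * iT T) i j = M i j
    rw [Matrix.add_apply, Matrix.sub_apply, mul_iT_apply, iT_mul_apply, if_pos hj, if_pos hi]
    by_cases hij : i = j
    · subst hij
      unfold iT
      rw [Matrix.one_apply_eq, Matrix.diagonal_apply_eq, if_pos hi]
      ring
    · unfold iT
      rw [Matrix.one_apply_ne hij, Matrix.diagonal_apply_ne _ hij]
      ring
  have h3 : Matrix.toSquareBlockProp (1 - iT T + iT T * M * iT T) (fun i => ¬ T i) = 1 := by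
    ext ⟨i, hi⟩ ⟨j, hj⟩
    change (1 - iT T + iT T * M * iT T) i j = _
    rw [Matrix.add_apply, Matrix.sub_apply, mul_iT_apply, if_neg hj]
    by_cases hij : i = j
    · subst hij
      unfold iT
      rw [Matrix.one_apply_eq, Matrix.diagonal_apply_eq, if_neg hi, Matrix.one_apply_eq]
      ring
    · unfold iT
      rw [Matrix.one_apply_ne hij, Matrix.diagonal_apply_ne _ hij, Matrix.one_apply_ne (by
        intro e
        exact hij (congrArg Subtype.val e))]
      ring
  rw [h2, h3, Matrix.det_one, mul_one]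

/-- The projection. -/
def prj (U : MN N) : MN N := U * iT T * Uᴴ

/-- The determinant of the compression. -/
noncomputable def Dl (A p : MN N) : ℂ := (1 - p + p * A * p).det

theorem Dl_prj {U : MN N} (hU : IsU U) (A : MN N) : Dl A (prj T U) = (blk T (Uᴴ * A * U)).det := by
  rw [← det_blk]
  have hU1 : Uᴴ * U = 1 := hU
  have hU2 : U * Uᴴ = 1 := hU.mul_star
  have e : 1 - prj T U + prj T U * A * prj T U = U * (1 - iT T + iT T * (Uᴴ * A * U) * iT T) * Uᴴ := by
    unfold prj
    rw [Matrix.mul_add, Matrix.mul_sub, Matrix.add_mul, Matrix.sub_mul, Matrix.mul_one, hU2]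
    simp only [Matrix.mul_assoc]
  unfold Dl
  rw [e, Matrix.det_mul, Matrix.det_mul, mul_comm U.det, mul_assoc, ← Matrix.det_mul, hU2, Matrix.det_one, mul_one]

theorem blk_mul (A B : MN N) : blk T (A * B) = blk T A * blk T B +
    (A.toBlock T fun i => ¬ T i) * B.toBlock (fun i => ¬ T i) T := by
  unfold blk
  exact Matrix.toBlock_mul_eq_add T T T A B

theorem Dl_ne {U A : MN N} (hU : IsU U) (hA : A.det ≠ 0) : Dl (A * Aᴴ) (prj T U) ≠ 0 := by
  rw [Dl_prj T hU]
  have h1 : (Uᴴ * A).det ≠ 0 := by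
    rw [Matrix.det_mul]
    refine mul_ne_zero ?_ hA
    have h2 := hU.star.norm_det
    intro h3
    rw [h3, norm_zero] at h2
    exact zero_ne_one h2
  have h2 : Matrix.PosDef (Uᴴ * (A * Aᴴ) * U) := by
    have e : Uᴴ * (A * Aᴴ) * U = ((Uᴴ * A)ᴴ)ᴴ * (Uᴴ * A)ᴴ := by
      rw [Matrix.conjTranspose_conjTranspose, Matrix.conjTranspose_mul, Matrix.conjTranspose_conjTranspose]
      simp only [Matrix.mul_assoc]
    rw [e]
    refine Matrix.PosDef.conjTranspose_mul_self _ ?_
    rw [Matrix.mulVec_injective_iff_isUnit, Matrix.isUnit_iff_isUnit_det, Matrix.det_conjTranspose]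
    exact (isUnit_iff_ne_zero.2 h1).star
  have h3 : Matrix.PosDef (blk T (Uᴴ * (A * Aᴴ) * U)) := h2.submatrix Subtype.val_injective
  exact h3.det_pos.ne'

end Det

section Lim

variable {G : Type} {ι : Type} [Fintype ι] [DecidableEq ι]

/-- Determinants of bounded families with the same limits. -/
theorem tendsto_det {F : Filter G} {A B : G → Matrix ι ι ℂ} {C : ℝ} (hA : ∀ γ i j, ‖A γ i j‖ ≤ C)
    (hAB : ∀ i j, Tendsto (fun γ => A γ i j - B γ i j) F (𝓝 0)) :
    Tendsto (fun γ => (A γ).det - (B γ).det) F (𝓝 0) := by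
  rw [tendsto_iff_ultrafilter]
  intro g hg
  have h1 : ∀ i j, ∃ a : ℂ, Tendsto (fun γ => A γ i j) g (𝓝 a) := fun i j => by
    obtain ⟨a, -, ha⟩ := (isCompact_closedBall (0 : ℂ) C).ultrafilter_le_nhds' (g.map fun γ => A γ i j) (by
      rw [Ultrafilter.mem_map]
      refine Filter.univ_mem' fun γ => ?_
      rw [Set.mem_preimage, mem_closedBall_zero_iff]
      exact hA γ i j)
    exact ⟨a, ha⟩
  choose a ha using h1
  have h2 : ∀ i j, Tendsto (fun γ => B γ i j) g (𝓝 (a i j)) := fun i j => by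
    have h3 := (ha i j).sub ((hAB i j).mono_left hg)
    rw [sub_zero] at h3
    exact h3.congr fun γ => by ring
  have h3 : Tendsto A g (𝓝 (Matrix.of a)) := tendsto_pi_nhds.2 fun i => tendsto_pi_nhds.2 fun j => ha i j
  have h4 : Tendsto B g (𝓝 (Matrix.of a)) := tendsto_pi_nhds.2 fun i => tendsto_pi_nhds.2 fun j => h2 i j
  have hc : Continuous fun M : Matrix ι ι ℂ => M.det := continuous_id.matrix_det
  have h5 := (hc.tendsto _).comp h3
  have h6 := (hc.tendsto _).comp h4
  have h7 := h5.sub h6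
  rwa [sub_self] at h7

end Lim

section Unif

variable {N : ℕ} (T : Fin N → Prop) [DecidablePred T]

theorem isCompact_prj : IsCompact {p : MN N | ∃ U : MN N, IsU U ∧ p = prj T U} := by
  have h1 : IsCompact (Set.univ.pi fun _ : Fin N => (Set.univ.pi fun _ : Fin N => Metric.closedBall (0 : ℂ) 1)) :=
    isCompact_univ_pi fun _ => isCompact_univ_pi fun _ => isCompact_closedBall 0 1
  have h2 : IsClosed {k : MN N | IsU k} := by
    have : Continuous fun k : MN N => kᴴ * k := by fun_prop
    exact isClosed_eq this continuous_const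
  have h3 : IsCompact {k : MN N | IsU k} := by
    refine IsCompact.of_isClosed_subset h1 h2 ?_
    intro k hk
    refine Set.mem_univ_pi.2 fun i => Set.mem_univ_pi.2 fun j => ?_
    rw [mem_closedBall_zero_iff]
    exact norm_entry_le_one hk i j
  have h4 : Continuous fun k : MN N => prj T k := by
    unfold prj
    fun_prop
  have h5 : {p : MN N | ∃ U : MN N, IsU U ∧ p = prj T U} = (fun k => prj T k) '' {k : MN N | IsU k} := by
    ext p
    constructor
    · rintro ⟨U, hU, rfl⟩
      exact ⟨U, hU, rfl⟩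
    · rintro ⟨U, hU, rfl⟩
      exact ⟨U, hU, rfl⟩
  rw [h5]
  exact h3.image h4

theorem ns_eq_zero {n m : Type} [Fintype n] [Fintype m] {A : Matrix n m ℂ} (h : ns A = 0) : A = 0 := by
  ext i j
  have h1 := norm_apply_sq_le A i j
  rw [h] at h1
  have h2 : ‖A i j‖ ^ 2 = 0 := le_antisymm h1 (sq_nonneg _)
  rw [Matrix.zero_apply]
  exact norm_eq_zero.1 (pow_eq_zero_iff two_ne_zero |>.1 h2)

/-- Uniform continuity on a compact set of matrices, in terms of `ns`. -/
theorem unif_ns {K : Set (MN N)} (hK : IsCompact K) {h : MN N → ℂ} (hc : ContinuousOn h K) {ε : ℝ} (hε : 0 < ε) :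
    ∃ δ : ℝ, 0 < δ ∧ ∀ p ∈ K, ∀ q ∈ K, ns (p - q) < δ → ‖h p - h q‖ < ε := by
  have hKK : IsCompact (K ×ˢ K) := hK.prod hK
  have h1 : ContinuousOn (fun x : MN N × MN N => ‖h x.1 - h x.2‖) (K ×ˢ K) :=
    ((hc.comp continuousOn_fst fun x hx => hx.1).sub (hc.comp continuousOn_snd fun x hx => hx.2)).norm
  have h2 : IsClosed ((K ×ˢ K) ∩ (fun x : MN N × MN N => ‖h x.1 - h x.2‖) ⁻¹' Set.Ici ε) :=
    h1.preimage_isClosed_of_isClosed hKK.isClosed isClosed_Ici
  have h3 : IsCompact ((K ×ˢ K) ∩ (fun x : MN N × MN N => ‖h x.1 - h x.2‖) ⁻¹' Set.Ici ε) :=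
    hKK.of_isClosed_subset h2 Set.inter_subset_left
  rcases Set.eq_empty_or_nonempty ((K ×ˢ K) ∩ (fun x : MN N × MN N => ‖h x.1 - h x.2‖) ⁻¹' Set.Ici ε) with h4 | h4
  · refine ⟨1, one_pos, fun p hp q hq _ => ?_⟩
    by_contra h5
    have : (p, q) ∈ ((K ×ˢ K) ∩ (fun x : MN N × MN N => ‖h x.1 - h x.2‖) ⁻¹' Set.Ici ε) :=
      ⟨⟨hp, hq⟩, not_lt.1 h5⟩
    rw [h4] at this
    exact this
  · have hns : Continuous fun x : MN N × MN N => ns (x.1 - x.2) := by
      unfold ns
      refine continuous_finsetSum _ fun i _ => continuous_finsetSum _ fun j _ => ?_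
      have h5 : Continuous fun x : MN N × MN N => x.1 - x.2 := continuous_fst.sub continuous_snd
      exact (h5.matrix_elem i j).norm.pow 2
    obtain ⟨x, hx, hmin⟩ := h3.exists_isMinOn h4 hns.continuousOn
    have h6 : 0 < ns (x.1 - x.2) := by
      rcases (Pool.Agent.Helper84.NI.ns_nonneg (x.1 - x.2)).lt_or_eq with h7 | h7
      · exact h7
      · exfalso
        have h8 := ns_eq_zero h7.symm
        have h9 : x.1 = x.2 := sub_eq_zero.1 h8
        have h10 : ε ≤ ‖h x.1 - h x.2‖ := hx.2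
        rw [h9, sub_self, norm_zero] at h10
        linarith
    refine ⟨_, h6, fun p hp q hq hpq => ?_⟩
    by_contra h5
    have h7 := hmin (show (p, q) ∈ _ from ⟨⟨hp, hq⟩, not_lt.1 h5⟩)
    exact absurd hpq (not_lt.2 h7)

theorem exists_lb {A : MN N} (hA : A.det ≠ 0) : ∃ c : ℝ, 0 < c ∧ ∀ U : MN N, IsU U → c ≤ ‖Dl (A * Aᴴ) (prj T U)‖ := by
  have hc : Continuous fun p : MN N => ‖Dl (A * Aᴴ) p‖ := by
    unfold Dl
    have h1 : Continuous fun p : MN N => 1 - p + p * (A * Aᴴ) * p := by fun_prop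
    exact h1.matrix_det.norm
  rcases Set.eq_empty_or_nonempty {p : MN N | ∃ U : MN N, IsU U ∧ p = prj T U} with h4 | h4
  · refine ⟨1, one_pos, fun U hU => ?_⟩
    have : prj T U ∈ {p : MN N | ∃ U : MN N, IsU U ∧ p = prj T U} := ⟨U, hU, rfl⟩
    rw [h4] at this
    exact this.elim
  · obtain ⟨x, hx, hmin⟩ := (isCompact_prj T).exists_isMinOn h4 hc.continuousOn
    obtain ⟨V, hV, rfl⟩ := hx
    exact ⟨_, norm_pos_iff.2 (Dl_ne T hV hA), fun U hU => hmin ⟨U, hU, rfl⟩⟩

theorem exists_ub (A : MN N) : ∃ c : ℝ, ∀ U : MN N, IsU U → ‖Dl (A * Aᴴ) (prj T U)‖ ≤ c := by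
  have hc : Continuous fun p : MN N => ‖Dl (A * Aᴴ) p‖ := by
    unfold Dl
    have h1 : Continuous fun p : MN N => 1 - p + p * (A * Aᴴ) * p := by fun_prop
    exact h1.matrix_det.norm
  obtain ⟨c, hc'⟩ := (isCompact_prj T).bddAbove_image hc.continuousOn
  exact ⟨c, fun U hU => hc' ⟨_, ⟨U, hU, rfl⟩, rfl⟩⟩

end Unif

end Pool.Agent.Helper83.FQ
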