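import Pool.Agent.Helper83.FQ.BusA
import Pool.Agent.Helper82.FQ.Scale

/-!
# Project FQ (MP_0f6f3f_an), layer SC: the Busemann cocycle

`om S T γ = ∑_{i ∈ T} log s_i(γ)`. If `m_{1,k}` is almost block triangular for `T` and `n_{1,k}` almost block diagonal, then `om (γ k) - om γ - lgD k γ → 0`, `lgD k γ = (1/2) log ‖Dl (k kᴴ) (p γ)‖`, `p γ` the projection on the span of the
right singular vectors with indices in `T` (`tendsto_bus`). Hence `Gk R pd (exp (i t om)) (exp (i t lgD))` (`gk_om`).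
-/

set_option autoImplicit false
set_option linter.unusedSectionVars false

open Filter Topology Matrix

namespace Pool.Agent.Helper83.FQ

open Pool.Agent.Helper84.NI Pool.Agent.Helper90.RK Pool.Agent.Helper84.GN Pool.Agent.Helper84.GN.S3
open Pool.Agent.Helper78.BM Pool.Agent.Helper43.FQ Pool.Agent.Helper82.FQ Pool.Agent.Helper96.RK

variable {G : Type} [Group G] {N : ℕ} {P : PH G N} (S : Su P) (T : Fin N → Prop) [DecidablePred T]

/-- The logarithm of the norm in the exterior power. -/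
noncomputable def om (γ : G) : ℝ := ∑ i : {i // T i}, Real.log (S.s γ i)

/-- The position. -/
noncomputable def pT (γ : G) : MN N := prj T (S.kR γ)

/-- The cocycle. -/
noncomputable def lgD (k γ : G) : ℝ := Real.log ‖Dl (P.ι k * (P.ι k)ᴴ) (pT S T γ)‖ / 2

/-- Almost block triangular for `T` along the filters `F n`. -/
structure Tri (F : ℕ → Filter G) : Prop where
  m : ∀ (k : G) (n : ℕ) (i j : Fin N), T i → ¬ T j → Tendsto (fun γ => S.m 1 k γ i j) (F n) (𝓝 0)
  n : ∀ (k : G) (n : ℕ) (i j : Fin N), ¬ T i → T j → Tendsto (fun γ => S.n 1 k γ i j) (F n) (𝓝 0)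

theorem det_m (k γ : G) : ‖(blk T (S.m 1 k γ)).det‖ =
    ‖(blk T (S.n 1 k γ)).det‖ * Real.exp (om S T (γ * k) - om S T γ) := by
  obtain ⟨c, hc, h⟩ := S.m_eq 1 k γ
  have e0 : (1 : G)⁻¹ * γ * k = γ * k := by group
  rw [e0] at h
  have e1 : blk T (S.m 1 k γ) = c • (diagonal (fun i : {i // T i} => (((S.s γ i)⁻¹ : ℝ) : ℂ)) *
      blk T (S.n 1 k γ) * diagonal (fun i : {i // T i} => ((S.s (γ * k) i : ℝ) : ℂ))) := by
    ext i j
    rw [Matrix.smul_apply, Matrix.mul_diagonal, Matrix.diagonal_mul, smul_eq_mul]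
    change S.m 1 k γ i j = c * ((((S.s γ i)⁻¹ : ℝ) : ℂ) * S.n 1 k γ i j * ((S.s (γ * k) j : ℝ) : ℂ))
    rw [h i j]
    push_cast
    ring
  have e2 : ‖(blk T (S.m 1 k γ)).det‖ = ‖(blk T (S.n 1 k γ)).det‖ *
      ((∏ i : {i // T i}, (S.s γ i)⁻¹) * ∏ i : {i // T i}, S.s (γ * k) i) := by
    rw [e1, Matrix.det_smul, Matrix.det_mul, Matrix.det_mul, Matrix.det_diagonal, Matrix.det_diagonal, norm_mul, norm_pow, hc,
      one_pow, one_mul, norm_mul, norm_mul, norm_prod, norm_prod]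
    have e3 : ∀ i : {i // T i}, ‖(((S.s γ i)⁻¹ : ℝ) : ℂ)‖ = (S.s γ i)⁻¹ := fun i => by
      rw [Complex.norm_real, Real.norm_of_nonneg (inv_pos.2 (S.pos γ i)).le]
    have e4 : ∀ i : {i // T i}, ‖((S.s (γ * k) i : ℝ) : ℂ)‖ = S.s (γ * k) i := fun i => by
      rw [Complex.norm_real, Real.norm_of_nonneg (S.pos (γ * k) i).le]
    simp only [e3, e4]
    ring
  rw [e2]
  congr 1
  have e3 : ∀ γ : G, Real.exp (om S T γ) = ∏ i : {i // T i}, S.s γ i := fun γ => by
    unfold om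
    rw [Real.exp_sum]
    exact Finset.prod_congr rfl fun i _ => Real.exp_log (S.pos γ i)
  rw [Real.exp_sub, e3, e3, Finset.prod_inv_distrib, div_eq_inv_mul]

variable {S T}

theorem tendsto_n {F : ℕ → Filter G} (h : Tri S T F) (k : G) (n : ℕ) :
    Tendsto (fun γ => ‖(blk T (S.n 1 k γ)).det‖ ^ 2) (F n) (𝓝 1) := by
  have h1 : Tendsto (fun γ => ((blk T (S.n 1 k γ))ᴴ * blk T (S.n 1 k γ)).det - (1 : Matrix {i // T i} {i // T i} ℂ).det)
      (F n) (𝓝 0) := by
    refine tendsto_det (C := N) (fun γ i j => ?_) fun i j => ?_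
    · rw [Matrix.mul_apply]
      refine (norm_sum_le _ _).trans ?_
      have h2 : ∀ l ∈ (Finset.univ : Finset {i // T i}), ‖(blk T (S.n 1 k γ))ᴴ i l * blk T (S.n 1 k γ) l j‖ ≤ 1 := by
        intro l _
        rw [norm_mul, Matrix.conjTranspose_apply, norm_star]
        exact mul_le_one₀ (norm_entry_le_one (S.n_unitary k γ) _ _) (norm_nonneg _)
          (norm_entry_le_one (S.n_unitary k γ) _ _)
      refine (Finset.sum_le_card_nsmul _ _ _ h2).trans ?_
      rw [nsmul_eq_mul, mul_one]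
      have h3 : (Finset.univ : Finset {i // T i}).card ≤ N := by
        rw [Finset.card_univ]
        exact (Fintype.card_subtype_le T).trans (by rw [Fintype.card_fin])
      exact_mod_cast h3
    · have h2 : ∀ γ, ((blk T (S.n 1 k γ))ᴴ * blk T (S.n 1 k γ)) i j - (1 : Matrix {i // T i} {i // T i} ℂ) i j =
          - ∑ l : {i // ¬ T i}, star (S.n 1 k γ l i) * S.n 1 k γ l j := fun γ => by
        have h3 := blk_mul T (S.n 1 k γ)ᴴ (S.n 1 k γ)
        have h4 : (S.n 1 k γ)ᴴ * S.n 1 k γ = 1 := S.n_unitary k γ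
        have h5 : blk T (1 : MN N) = 1 := by
          ext a b
          change (1 : MN N) a b = _
          by_cases hab : a = b
          · subst hab
            rw [Matrix.one_apply_eq, Matrix.one_apply_eq]
          · rw [Matrix.one_apply_ne hab, Matrix.one_apply_ne fun e => hab (Subtype.ext e)]
        have h6 : blk T (S.n 1 k γ)ᴴ = (blk T (S.n 1 k γ))ᴴ := rfl
        rw [h4, h5, h6] at h3
        have h7 := congrFun (congrFun h3 i) j
        rw [Matrix.add_apply, Matrix.mul_apply (M := (S.n 1 k γ)ᴴ.toBlock T fun i => ¬ T i)] at h7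
        rw [h7]
        change _ - (_ + ∑ l : {i // ¬ T i}, star (S.n 1 k γ l i) * S.n 1 k γ l j) = _
        ring
      have h8 : Tendsto (fun γ => - ∑ l : {i // ¬ T i}, star (S.n 1 k γ l i) * S.n 1 k γ l j) (F n) (𝓝 0) := by
        rw [show (0 : ℂ) = - ∑ _l : {i // ¬ T i}, (0 : ℂ) by simp]
        refine (tendsto_finsetSum _ fun l _ => ?_).neg
        have h9 := h.n k n l i l.2 i.2
        have h10 := h.n k n l j l.2 j.2
        have h11 := ((continuous_star.tendsto (0 : ℂ)).comp h9).mul h10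
        rw [mul_zero] at h11
        exact h11
      exact h8.congr fun γ => (h2 γ).symm
  rw [Matrix.det_one] at h1
  have h2 : Tendsto (fun γ => (((‖(blk T (S.n 1 k γ)).det‖ ^ 2 - 1 : ℝ)) : ℂ)) (F n) (𝓝 0) := by
    refine h1.congr fun γ => ?_
    rw [Matrix.det_mul, Matrix.det_conjTranspose, mul_comm, ← Complex.normSq_eq_norm_sq]
    have h3 := Complex.mul_conj (blk T (S.n 1 k γ)).det
    rw [Complex.ofReal_sub, ← h3]
    simp
  have h3 := (Complex.continuous_re.tendsto _).comp h2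
  have h4 : Tendsto (fun γ => ‖(blk T (S.n 1 k γ)).det‖ ^ 2 - 1) (F n) (𝓝 0) := by
    refine h3.congr fun γ => ?_
    simp only [Function.comp_apply, Complex.ofReal_re]
  have h5 := h4.add_const 1
  simpa using h5

theorem tendsto_m {F : ℕ → Filter G} (h : Tri S T F) (k : G) (n : ℕ) :
    Tendsto (fun γ => ‖(blk T (S.m 1 k γ)).det‖ ^ 2 - ‖Dl (P.ι k * (P.ι k)ᴴ) (pT S T γ)‖) (F n) (𝓝 0) := by
  have hb : ∀ γ i j, ‖S.m 1 k γ i j‖ ≤ Real.sqrt (ns (P.ι k)) := fun γ i j => S.norm_m_le 1 k γ i j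
  have h1 : Tendsto (fun γ => (blk T (S.m 1 k γ) * (blk T (S.m 1 k γ))ᴴ).det - (blk T (S.m 1 k γ * (S.m 1 k γ)ᴴ)).det)
      (F n) (𝓝 0) := by
    refine tendsto_det (C := N * (Real.sqrt (ns (P.ι k)) * Real.sqrt (ns (P.ι k)))) (fun γ i j => ?_) fun i j => ?_
    · rw [Matrix.mul_apply]
      refine (norm_sum_le _ _).trans ?_
      have h2 : ∀ l ∈ (Finset.univ : Finset {i // T i}), ‖blk T (S.m 1 k γ) i l * (blk T (S.m 1 k γ))ᴴ l j‖ ≤
          Real.sqrt (ns (P.ι k)) * Real.sqrt (ns (P.ι k)) := by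
        intro l _
        rw [norm_mul, Matrix.conjTranspose_apply, norm_star]
        exact mul_le_mul (hb γ _ _) (hb γ _ _) (norm_nonneg _) (Real.sqrt_nonneg _)
      refine (Finset.sum_le_card_nsmul _ _ _ h2).trans ?_
      rw [nsmul_eq_mul]
      have h3 : (Finset.univ : Finset {i // T i}).card ≤ N := by
        rw [Finset.card_univ]
        exact (Fintype.card_subtype_le T).trans (by rw [Fintype.card_fin])
      have h4 : ((Finset.univ : Finset {i // T i}).card : ℝ) ≤ N := by exact_mod_cast h3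
      exact mul_le_mul_of_nonneg_right h4 (mul_nonneg (Real.sqrt_nonneg _) (Real.sqrt_nonneg _))
    · have h2 : ∀ γ, (blk T (S.m 1 k γ) * (blk T (S.m 1 k γ))ᴴ) i j - (blk T (S.m 1 k γ * (S.m 1 k γ)ᴴ)) i j =
          - ∑ l : {i // ¬ T i}, S.m 1 k γ i l * star (S.m 1 k γ j l) := fun γ => by
        have h3 := blk_mul T (S.m 1 k γ) (S.m 1 k γ)ᴴ
        have h6 : blk T (S.m 1 k γ)ᴴ = (blk T (S.m 1 k γ))ᴴ := rfl
        rw [h6] at h3
        have h7 := congrFun (congrFun h3 i) j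
        rw [Matrix.add_apply, Matrix.mul_apply (M := (S.m 1 k γ).toBlock T fun i => ¬ T i)] at h7
        rw [h7]
        change _ - (_ + ∑ l : {i // ¬ T i}, S.m 1 k γ i l * star (S.m 1 k γ j l)) = _
        ring
      have h8 : Tendsto (fun γ => - ∑ l : {i // ¬ T i}, S.m 1 k γ i l * star (S.m 1 k γ j l)) (F n) (𝓝 0) := by
        rw [show (0 : ℂ) = - ∑ _l : {i // ¬ T i}, (0 : ℂ) by simp]
        refine (tendsto_finsetSum _ fun l _ => ?_).neg
        have h9 := h.m k n i l i.2 l.2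
        have h10 := h.m k n j l j.2 l.2
        have h11 := h9.mul ((continuous_star.tendsto (0 : ℂ)).comp h10)
        rw [star_zero, mul_zero] at h11
        exact h11
      exact h8.congr fun γ => (h2 γ).symm
  have h2 : ∀ γ, (blk T (S.m 1 k γ * (S.m 1 k γ)ᴴ)).det = Dl (P.ι k * (P.ι k)ᴴ) (pT S T γ) := fun γ => by
    unfold pT
    rw [Dl_prj T (S.uR γ)]
    congr 2
    unfold Su.m
    have hR : S.kR (1⁻¹ * γ * k) * (S.kR (1⁻¹ * γ * k))ᴴ = 1 := (S.uR _).mul_star
    rw [Matrix.conjTranspose_mul, Matrix.conjTranspose_mul, Matrix.conjTranspose_conjTranspose]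
    calc (S.kR γ)ᴴ * P.ι k * S.kR (1⁻¹ * γ * k) * ((S.kR (1⁻¹ * γ * k))ᴴ * ((P.ι k)ᴴ * S.kR γ))
        = (S.kR γ)ᴴ * P.ι k * (S.kR (1⁻¹ * γ * k) * (S.kR (1⁻¹ * γ * k))ᴴ) * ((P.ι k)ᴴ * S.kR γ) := by
          simp only [Matrix.mul_assoc]
      _ = _ := by
          rw [hR, Matrix.mul_one]
          simp only [Matrix.mul_assoc]
  have h3 : Tendsto (fun γ => ‖(blk T (S.m 1 k γ) * (blk T (S.m 1 k γ))ᴴ).det -
      Dl (P.ι k * (P.ι k)ᴴ) (pT S T γ)‖) (F n) (𝓝 0) := by
    have h4 := h1.norm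
    rw [norm_zero] at h4
    exact h4.congr fun γ => by rw [h2]
  refine squeeze_zero_norm (fun γ => ?_) h3
  have h4 : ‖(blk T (S.m 1 k γ) * (blk T (S.m 1 k γ))ᴴ).det‖ = ‖(blk T (S.m 1 k γ)).det‖ ^ 2 := by
    rw [Matrix.det_mul, Matrix.det_conjTranspose, norm_mul, norm_star, sq]
  rw [← h4]
  exact abs_norm_sub_norm_le _ _

theorem det_iota (P : PH G N) (k : G) : (P.ι k).det ≠ 0 := by
  intro h
  have h1 := P.det1 k
  rw [h, norm_zero] at h1
  exact zero_ne_one h1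

/-- **The Busemann cocycle.** -/
theorem tendsto_bus {F : ℕ → Filter G} (h : Tri S T F) (k : G) (n : ℕ) :
    Tendsto (fun γ => om S T (γ * k) - om S T γ - lgD S T k γ) (F n) (𝓝 0) := by
  obtain ⟨c, hc, hlb⟩ := exists_lb T (det_iota P k)
  have hlb' : ∀ γ, c ≤ ‖Dl (P.ι k * (P.ι k)ᴴ) (pT S T γ)‖ := fun γ => hlb _ (S.uR γ)
  set D : G → ℝ := fun γ => ‖Dl (P.ι k * (P.ι k)ᴴ) (pT S T γ)‖ with hD
  have hDpos : ∀ γ, 0 < D γ := fun γ => hc.trans_le (hlb' γ)
  -- the quotient tends to one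
  have h1 : Tendsto (fun γ => (‖(blk T (S.m 1 k γ)).det‖ ^ 2 - D γ) / D γ) (F n) (𝓝 0) := by
    have h2 := (tendsto_m h k n).norm
    rw [norm_zero] at h2
    have h3 : Tendsto (fun γ => ‖‖(blk T (S.m 1 k γ)).det‖ ^ 2 - D γ‖ / c) (F n) (𝓝 0) := by
      have h4 := h2.div_const c
      rwa [zero_div] at h4
    refine squeeze_zero_norm (fun γ => ?_) h3
    rw [norm_div, Real.norm_of_nonneg (hDpos γ).le]
    exact div_le_div_of_nonneg_left (norm_nonneg _) hc (hlb' γ)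
  have h2 : Tendsto (fun γ => ‖(blk T (S.m 1 k γ)).det‖ ^ 2 / D γ) (F n) (𝓝 1) := by
    have h3 := h1.add_const 1
    rw [zero_add] at h3
    refine h3.congr fun γ => ?_
    have := (hDpos γ).ne'
    field_simp
    ring
  have h3 := h2.div (tendsto_n h k n) one_ne_zero
  rw [div_one] at h3
  have h4 : Tendsto (fun γ => Real.log (‖(blk T (S.m 1 k γ)).det‖ ^ 2 / D γ / ‖(blk T (S.n 1 k γ)).det‖ ^ 2) / 2) (F n) (𝓝 0) := by
    have h5 := (Real.continuousAt_log one_ne_zero).tendsto.comp h3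
    rw [Real.log_one] at h5
    have h6 := h5.div_const 2
    rwa [zero_div] at h6
  have h5 : ∀ᶠ γ in F n, 0 < ‖(blk T (S.n 1 k γ)).det‖ ^ 2 := (tendsto_n h k n).eventually (lt_mem_nhds one_pos)
  refine h4.congr' ?_
  filter_upwards [h5] with γ h6
  have h7 : 0 < ‖(blk T (S.n 1 k γ)).det‖ := by
    rcases (norm_nonneg (blk T (S.n 1 k γ)).det).lt_or_eq with h8 | h8
    · exact h8
    · rw [← h8] at h6
      norm_num at h6
  have h8 : ‖(blk T (S.m 1 k γ)).det‖ ^ 2 / D γ / ‖(blk T (S.n 1 k γ)).det‖ ^ 2 =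
      Real.exp (om S T (γ * k) - om S T γ) ^ 2 / D γ := by
    rw [det_m]
    have := (hDpos γ).ne'
    field_simp
  rw [h8, Real.log_div (pow_ne_zero _ (Real.exp_pos _).ne') (hDpos γ).ne', Real.log_pow, Real.log_exp]
  unfold lgD
  push_cast
  ring

variable (S T)

/-- The metric controls the positions. -/
def UCp (pd : PD G) : Prop := ∀ ε : ℝ, 0 < ε → ∃ δ : ℝ, 0 < δ ∧ ∀ γ γ', pd.d γ γ' < δ → ns (pT S T γ - pT S T γ') < ε

/-- The character of a real function. -/
noncomputable def ch (t : ℝ) (f : G → ℝ) (γ : G) : ℂ := Complex.exp (((t * f γ : ℝ) : ℂ) * Complex.I)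

variable {S T}

theorem norm_ch (t : ℝ) (f : G → ℝ) (γ : G) : ‖ch t f γ‖ = 1 := Complex.norm_exp_ofReal_mul_I _

theorem uc_lgD {pd : PD G} (hp : UCp S T pd) (t : ℝ) (k : G) : UC pd (ch t (lgD S T k)) := by
  intro ε hε
  obtain ⟨c, hc, hlb⟩ := exists_lb T (det_iota P k)
  set K : Set (MN N) := {p : MN N | ∃ U : MN N, IsU U ∧ p = prj T U} with hK
  have hcont : ContinuousOn (fun p : MN N => Complex.exp (((t * (Real.log ‖Dl (P.ι k * (P.ι k)ᴴ) p‖ / 2) : ℝ) : ℂ) * Complex.I)) K := by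
    have h1 : Continuous fun p : MN N => ‖Dl (P.ι k * (P.ι k)ᴴ) p‖ := by
      unfold Dl
      have h1 : Continuous fun p : MN N => 1 - p + p * (P.ι k * (P.ι k)ᴴ) * p := by fun_prop
      exact h1.matrix_det.norm
    have h2 : ContinuousOn (fun p : MN N => Real.log ‖Dl (P.ι k * (P.ι k)ᴴ) p‖) K := by
      refine h1.continuousOn.log fun p hp => ?_
      obtain ⟨U, hU, rfl⟩ := hp
      exact (hc.trans_le (hlb U hU)).ne'
    have h3 : Continuous fun x : ℝ => Complex.exp (((t * (x / 2) : ℝ) : ℂ) * Complex.I) := by fun_prop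
    exact h3.comp_continuousOn h2
  obtain ⟨δ, hδ, h1⟩ := unif_ns (isCompact_prj T) hcont hε
  obtain ⟨δ', hδ', h2⟩ := hp δ hδ
  refine ⟨δ', hδ', fun γ γ' hd => ?_⟩
  exact (h1 _ ⟨_, S.uR γ, rfl⟩ _ ⟨_, S.uR γ', rfl⟩ (h2 γ γ' hd)).le

/-- **The hypothesis of the scale lemma.** -/
theorem gk_om {R : Reg G} {pd : PD G} (h : Tri S T R.F) (hp : UCp S T pd) (t : ℝ) :
    Gk R pd (ch t (om S T)) (fun k => ch t (lgD S T k)) where
  one := norm_ch t _
  av k := by
    refine AV.of_pc (C := 1) (fun γ => (norm_ch t _ γ).le) fun ε hε => ?_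
    obtain ⟨δ, hδ, h1⟩ := uc_lgD hp t k ε hε
    exact ⟨δ, hδ, fun n => ⟨Set.univ, Filter.univ_mem, fun γ _ γ' _ hd => h1 γ γ' hd⟩⟩
  lim k n := by
    have h1 := tendsto_bus h k n
    have h2 : Tendsto (fun γ => Complex.exp (((t * (om S T (γ * k) - om S T γ - lgD S T k γ) : ℝ) : ℂ) * Complex.I) - 1)
        (R.F n) (𝓝 0) := by
      have hc : Continuous fun x : ℝ => Complex.exp (((t * x : ℝ) : ℂ) * Complex.I) - 1 := by fun_prop
      have h3 := (hc.tendsto 0).comp h1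
      simpa [Function.comp_def] using h3
    have h3 := h2.norm
    rw [norm_zero] at h3
    refine squeeze_zero_norm (fun γ => le_of_eq ?_) h3
    have h4 : ch t (om S T) (γ * k) - ch t (om S T) γ * ch t (lgD S T k) γ = (ch t (om S T) γ * ch t (lgD S T k) γ) *
        (Complex.exp (((t * (om S T (γ * k) - om S T γ - lgD S T k γ) : ℝ) : ℂ) * Complex.I) - 1) := by
      unfold ch
      rw [← Complex.exp_add, mul_sub, ← Complex.exp_add, mul_one]
      congr 2
      push_cast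
      ring
    rw [h4, norm_mul, norm_mul, norm_ch, norm_ch, one_mul, one_mul]

end Pool.Agent.Helper83.FQ
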