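import Pool.Agent.Helper84.GD.Basic
import Pool.Agent.Helper83.FQ.BusC

/-!
# Project FQ (MP_0f6f3f_an), layer SC: the Busemann cocycle of group data

`D : GD 𝔾 ι`, `φ : G →* 𝔾`. `bu D φ l k γ = (1/2) log |xv ρ(k)|²`, `xv = xv l (φ γ)` the right datum. `tendsto_tw`: `tw (γ k) - tw γ - bu k γ → 0` when the gap `l` tends to infinity. `UCx`: the metric controls the line of the right
datum. `gk_tw`: the hypothesis of the scale lemma for `tw D l`.
-/

set_option autoImplicit false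
set_option linter.unusedSectionVars false

open Filter Topology Matrix

namespace Pool.Agent.Helper83.FQ

open Pool.Agent.Helper84.GDL Pool.Agent.Helper84.GN Pool.Agent.Helper84.GN.S3 Pool.Agent.Helper78.BM Pool.Agent.Helper82.FQ

variable {𝔾 : Type} [Group 𝔾] [TopologicalSpace 𝔾] [IsTopologicalGroup 𝔾] {ι : Type} [Fintype ι] [DecidableEq ι] (D : GD 𝔾 ι)

section Alg

variable (l : ι)

theorem orth' {k : 𝔾} (hk : k ∈ D.K) : D.rho l k * (D.rho l k)ᵀ = 1 := mul_eq_one_comm.1 (D.orth l k hk)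

theorem entry_le {M : Matrix (Fin (D.d l + 1)) (Fin (D.d l + 1)) ℝ} (hM : Mᵀ * M = 1) (i j : Fin (D.d l + 1)) : |M i j| ≤ 1 := by
  have h1 := congrFun (congrFun hM j) j
  rw [Matrix.mul_apply, Matrix.one_apply_eq] at h1
  have h2 : M i j ^ 2 ≤ ∑ a, Mᵀ j a * M a j := by
    refine le_trans (le_of_eq ?_) (Finset.single_le_sum (f := fun a => Mᵀ j a * M a j) (fun a _ => ?_) (Finset.mem_univ i))
    · rw [Matrix.transpose_apply, sq]
    · rw [Matrix.transpose_apply]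
      exact mul_self_nonneg _
  rw [h1] at h2
  rw [← sq_abs] at h2
  nlinarith [abs_nonneg (M i j)]

/-- `kR(g) k kR(g k)⁻¹` -/
noncomputable def mm (g k : 𝔾) : Matrix (Fin (D.d l + 1)) (Fin (D.d l + 1)) ℝ :=
  D.rho l (D.kR g) * D.rho l k * (D.rho l (D.kR (g * k)))ᵀ

/-- `kL(g)⁻¹ kL(g k)` -/
noncomputable def nn (g k : 𝔾) : Matrix (Fin (D.d l + 1)) (Fin (D.d l + 1)) ℝ :=
  (D.rho l (D.kL g))ᵀ * D.rho l (D.kL (g * k))

/-- the weight -/
noncomputable def wt (i : Fin (D.d l + 1)) (g : 𝔾) : ℝ := ∑ j, (D.top l j - D.n l i j) * D.mu g j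

theorem wt_zero (g : 𝔾) : wt D l 0 g = D.tw l g := Finset.sum_congr rfl fun j _ => by rw [D.n_zero, Nat.cast_zero, sub_zero]

theorem wt_le {i : Fin (D.d l + 1)} (hi : i ≠ 0) (g : 𝔾) : wt D l i g ≤ D.tw l g - D.mu g l := by
  have h1 : D.tw l g - wt D l i g = ∑ j, (D.n l i j : ℝ) * D.mu g j := by
    unfold GD.tw wt
    rw [← Finset.sum_sub_distrib]
    exact Finset.sum_congr rfl fun j _ => by ring
  have h2 : D.mu g l ≤ ∑ j, (D.n l i j : ℝ) * D.mu g j := by
    refine le_trans ?_ (Finset.single_le_sum (f := fun j => (D.n l i j : ℝ) * D.mu g j)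
      (fun j _ => mul_nonneg (Nat.cast_nonneg _) (D.mu_nonneg g j)) (Finset.mem_univ l))
    have h3 : (1 : ℝ) ≤ D.n l i l := by exact_mod_cast D.n_pos l i hi
    have h4 := D.mu_nonneg g l
    nlinarith
  linarith

theorem orth_nn (g k : 𝔾) : (nn D l g k)ᵀ * nn D l g k = 1 := by
  unfold nn
  rw [Matrix.transpose_mul, Matrix.transpose_transpose]
  calc (D.rho l (D.kL (g * k)))ᵀ * D.rho l (D.kL g) * ((D.rho l (D.kL g))ᵀ * D.rho l (D.kL (g * k)))
      = (D.rho l (D.kL (g * k)))ᵀ * (D.rho l (D.kL g) * (D.rho l (D.kL g))ᵀ) * D.rho l (D.kL (g * k)) := by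
        simp only [Matrix.mul_assoc]
    _ = 1 := by rw [orth' D l (D.kL_mem g), Matrix.mul_one, D.orth l _ (D.kL_mem (g * k))]

/-- `n a' = a m` -/
theorem mm_eq (g k : 𝔾) (i j : Fin (D.d l + 1)) :
    nn D l g k i j * Real.exp (wt D l j (g * k)) = Real.exp (wt D l i g) * mm D l g k i j := by
  have h1 : D.rho l (D.kL (g * k)) * D.rho l (D.ea (D.mu (g * k))) * D.rho l (D.kR (g * k)) =
      D.rho l (D.kL g) * D.rho l (D.ea (D.mu g)) * D.rho l (D.kR g) * D.rho l k := by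
    rw [← map_mul, ← map_mul, ← map_mul, ← map_mul, ← map_mul, ← D.kak g, ← D.kak (g * k)]
  have h2 : nn D l g k * D.rho l (D.ea (D.mu (g * k))) = D.rho l (D.ea (D.mu g)) * mm D l g k := by
    have h3 : nn D l g k * D.rho l (D.ea (D.mu (g * k))) =
        (D.rho l (D.kL g))ᵀ * (D.rho l (D.kL (g * k)) * D.rho l (D.ea (D.mu (g * k))) * D.rho l (D.kR (g * k))) *
          (D.rho l (D.kR (g * k)))ᵀ := by
      unfold nn
      have h4 := orth' D l (D.kR_mem (g * k))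
      calc (D.rho l (D.kL g))ᵀ * D.rho l (D.kL (g * k)) * D.rho l (D.ea (D.mu (g * k)))
          = (D.rho l (D.kL g))ᵀ * (D.rho l (D.kL (g * k)) * D.rho l (D.ea (D.mu (g * k)))) *
              (D.rho l (D.kR (g * k)) * (D.rho l (D.kR (g * k)))ᵀ) := by rw [h4, Matrix.mul_one, Matrix.mul_assoc]
        _ = _ := by simp only [Matrix.mul_assoc]
    rw [h3, h1]
    unfold mm
    have h4 := D.orth l _ (D.kL_mem g)
    calc (D.rho l (D.kL g))ᵀ * (D.rho l (D.kL g) * D.rho l (D.ea (D.mu g)) * D.rho l (D.kR g) * D.rho l k) *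
          (D.rho l (D.kR (g * k)))ᵀ
        = ((D.rho l (D.kL g))ᵀ * D.rho l (D.kL g)) * D.rho l (D.ea (D.mu g)) * (D.rho l (D.kR g) * D.rho l k *
          (D.rho l (D.kR (g * k)))ᵀ) := by simp only [Matrix.mul_assoc]
      _ = _ := by rw [h4, Matrix.one_mul]
  have h3 := congrFun (congrFun h2 i) j
  rw [D.rho_ea, D.rho_ea, Matrix.mul_diagonal, Matrix.diagonal_mul] at h3
  exact h3

/-- Bound of the entries of `m`. -/
theorem mm_le (g k : 𝔾) (i j : Fin (D.d l + 1)) : |mm D l g k i j| ≤ ∑ a, ∑ b, |D.rho l k a b| := by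
  unfold mm
  rw [Matrix.mul_apply]
  have h1 : ∀ b, |(D.rho l (D.kR g) * D.rho l k) i b * (D.rho l (D.kR (g * k)))ᵀ b j| ≤ ∑ a, |D.rho l k a b| := by
    intro b
    rw [abs_mul]
    have h2 : |(D.rho l (D.kR (g * k)))ᵀ b j| ≤ 1 := by
      rw [Matrix.transpose_apply]
      exact entry_le D l (D.orth l _ (D.kR_mem (g * k))) _ _
    have h3 : |(D.rho l (D.kR g) * D.rho l k) i b| ≤ ∑ a, |D.rho l k a b| := by
      rw [Matrix.mul_apply]
      refine (Finset.abs_sum_le_sum_abs _ _).trans (Finset.sum_le_sum fun a _ => ?_)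
      rw [abs_mul]
      have h4 := entry_le D l (D.orth l _ (D.kR_mem g)) i a
      have h5 := abs_nonneg (D.rho l k a b)
      nlinarith
    have h6 : 0 ≤ ∑ a, |D.rho l k a b| := Finset.sum_nonneg fun a _ => abs_nonneg _
    calc |(D.rho l (D.kR g) * D.rho l k) i b| * |(D.rho l (D.kR (g * k)))ᵀ b j| ≤ (∑ a, |D.rho l k a b|) * 1 :=
          mul_le_mul h3 h2 (abs_nonneg _) h6
      _ = _ := mul_one _
  refine (Finset.abs_sum_le_sum_abs _ _).trans ((Finset.sum_le_sum fun b _ => h1 b).trans (le_of_eq ?_))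
  exact Finset.sum_comm

/-- The square of the length of `x ρ(k)`. -/
noncomputable def sl (k : 𝔾) (x : Fin (D.d l + 1) → ℝ) : ℝ := ∑ a, ∑ b, x a * x b * (D.rho l k * (D.rho l k)ᵀ) a b

theorem sum_mm (g k : 𝔾) : ∑ j, mm D l g k 0 j ^ 2 = sl D l k (D.xv l g) := by
  have h1 : ∑ j, mm D l g k 0 j ^ 2 = (mm D l g k * (mm D l g k)ᵀ) 0 0 := by
    rw [Matrix.mul_apply]
    exact Finset.sum_congr rfl fun j _ => by rw [Matrix.transpose_apply, sq]
  have h2 : mm D l g k * (mm D l g k)ᵀ = D.rho l (D.kR g) * (D.rho l k * (D.rho l k)ᵀ) * (D.rho l (D.kR g))ᵀ := by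
    unfold mm
    rw [Matrix.transpose_mul, Matrix.transpose_mul, Matrix.transpose_transpose]
    have h4 := D.orth l _ (D.kR_mem (g * k))
    calc D.rho l (D.kR g) * D.rho l k * (D.rho l (D.kR (g * k)))ᵀ * (D.rho l (D.kR (g * k)) * ((D.rho l k)ᵀ * (D.rho l (D.kR g))ᵀ))
        = D.rho l (D.kR g) * D.rho l k * ((D.rho l (D.kR (g * k)))ᵀ * D.rho l (D.kR (g * k))) * ((D.rho l k)ᵀ * (D.rho l (D.kR g))ᵀ) := by
          simp only [Matrix.mul_assoc]
      _ = _ := by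
          rw [h4, Matrix.mul_one]
          simp only [Matrix.mul_assoc]
  rw [h1, h2, Matrix.mul_apply]
  unfold sl
  rw [Finset.sum_comm]
  refine Finset.sum_congr rfl fun b _ => ?_
  rw [Matrix.mul_apply, Finset.sum_mul]
  refine Finset.sum_congr rfl fun a _ => ?_
  rw [Matrix.transpose_apply]
  unfold GD.xv
  ring

theorem sl_eq (k : 𝔾) (x : Fin (D.d l + 1) → ℝ) : sl D l k x = ∑ j, (∑ a, x a * D.rho l k a j) ^ 2 := by
  unfold sl
  have h1 : ∀ j, (∑ a, x a * D.rho l k a j) ^ 2 = ∑ a, ∑ b, x a * x b * (D.rho l k a j * D.rho l k b j) := fun j => by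
    rw [sq, Finset.sum_mul_sum]
    exact Finset.sum_congr rfl fun a _ => Finset.sum_congr rfl fun b _ => by ring
  simp only [h1]
  symm
  rw [Finset.sum_comm]
  refine Finset.sum_congr rfl fun a _ => ?_
  rw [Finset.sum_comm]
  refine Finset.sum_congr rfl fun b _ => ?_
  rw [Matrix.mul_apply, Finset.mul_sum]
  exact Finset.sum_congr rfl fun j _ => by rw [Matrix.transpose_apply]

theorem xv_norm (g : 𝔾) : ∑ a, D.xv l g a ^ 2 = 1 := by
  have h1 := congrFun (congrFun (orth' D l (D.kR_mem g)) 0) 0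
  rw [Matrix.mul_apply, Matrix.one_apply_eq] at h1
  rw [← h1]
  exact Finset.sum_congr rfl fun a _ => by rw [Matrix.transpose_apply, sq]; rfl

/-- Lower bound. -/
theorem exists_sl (k : 𝔾) : ∃ c : ℝ, 0 < c ∧ ∀ g : 𝔾, c ≤ sl D l k (D.xv l g) := by
  set M : ℝ := ∑ j, ∑ b, (D.rho l k⁻¹ j b) ^ 2 with hM
  have hM0 : 0 ≤ M := Finset.sum_nonneg fun j _ => Finset.sum_nonneg fun b _ => sq_nonneg _
  refine ⟨1 / (M + 1), by positivity, fun g => ?_⟩
  rw [sl_eq, div_le_iff₀ (by positivity)]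
  set y : Fin (D.d l + 1) → ℝ := fun j => ∑ a, D.xv l g a * D.rho l k a j with hy
  have h1 : ∀ b, D.xv l g b = ∑ j, y j * D.rho l k⁻¹ j b := by
    intro b
    have h2 : D.rho l k * D.rho l k⁻¹ = 1 := by rw [← map_mul, mul_inv_cancel, map_one]
    have h3 : ∑ j, y j * D.rho l k⁻¹ j b = ∑ a, D.xv l g a * (D.rho l k * D.rho l k⁻¹) a b := by
      rw [hy]
      simp only [Finset.sum_mul, Matrix.mul_apply, Finset.mul_sum]
      rw [Finset.sum_comm]
      exact Finset.sum_congr rfl fun a _ => Finset.sum_congr rfl fun j _ => by ring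
    rw [h3, h2]
    simp [Matrix.one_apply]
  have h2 : ∀ b, D.xv l g b ^ 2 ≤ (∑ j, y j ^ 2) * ∑ j, (D.rho l k⁻¹ j b) ^ 2 := by
    intro b
    rw [h1 b]
    exact Finset.sum_mul_sq_le_sq_mul_sq _ _ _
  have h3 : (1 : ℝ) ≤ (∑ j, y j ^ 2) * M := by
    rw [← xv_norm D l g]
    refine (Finset.sum_le_sum fun b _ => h2 b).trans (le_of_eq ?_)
    rw [← Finset.mul_sum, hM, Finset.sum_comm]
  have h4 : 0 ≤ ∑ j, y j ^ 2 := Finset.sum_nonneg fun j _ => sq_nonneg _
  nlinarith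

end Alg

section Lim

variable {G : Type} [Group G] (φ : G →* 𝔾) (l : ι)

/-- The cocycle. -/
noncomputable def bu (k γ : G) : ℝ := Real.log (sl D l (φ k) (D.xv l (φ γ))) / 2

/-- **The Busemann cocycle.** -/
theorem tendsto_tw {F : Filter G} (hF : Tendsto (fun γ => D.mu (φ γ) l) F atTop) (k : G) :
    Tendsto (fun γ => D.tw l (φ (γ * k)) - D.tw l (φ γ) - bu D φ l k γ) F (𝓝 0) := by
  -- the gap of `γ k`
  have hF' : Tendsto (fun γ => D.mu (φ (γ * k)) l) F atTop := by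
    obtain ⟨R, -, hR⟩ := D.mu_shift (B := {1, φ k}) ((Set.toFinite _).isCompact)
    refine tendsto_atTop_mono (fun γ => ?_) (tendsto_atTop_add_const_right _ (-R) hF)
    have h1 := abs_le.1 (hR 1 (by simp) (φ k) (by simp) (φ γ) l)
    rw [one_mul] at h1
    rw [map_mul]
    linarith [h1.1]
  have hup : ∀ γ, D.tw l (φ (γ * k)) ≤ D.tw l (φ γ) + D.tw l (φ k) := fun γ => by
    rw [map_mul]
    exact D.tw_mul_le l _ _
  have hdn : ∀ γ, D.tw l (φ γ) ≤ D.tw l (φ (γ * k)) + D.tw l (φ k)⁻¹ := fun γ => by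
    have h1 := D.tw_mul_le l (φ (γ * k)) (φ k)⁻¹
    rw [map_mul, mul_inv_cancel_right] at h1
    rw [map_mul]
    exact h1
  -- entries of `m` in the row `0`
  have hm : ∀ j, j ≠ 0 → Tendsto (fun γ => mm D l (φ γ) (φ k) 0 j) F (𝓝 0) := by
    intro j hj
    have h1 : Tendsto (fun γ => Real.exp (D.tw l (φ k) - D.mu (φ (γ * k)) l)) F (𝓝 0) :=
      Real.tendsto_exp_atBot.comp (tendsto_atBot_add_const_left _ _ (tendsto_neg_atTop_atBot.comp hF'))
    refine squeeze_zero_norm (fun γ => ?_) h1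
    have h2 := mm_eq D l (φ γ) (φ k) 0 j
    have h3 : mm D l (φ γ) (φ k) 0 j = nn D l (φ γ) (φ k) 0 j * Real.exp (wt D l j (φ γ * φ k) - wt D l 0 (φ γ)) := by
      rw [Real.exp_sub, mul_div_assoc', h2, mul_div_cancel_left₀ _ (Real.exp_pos _).ne']
    rw [h3, norm_mul, Real.norm_eq_abs, Real.norm_eq_abs, Real.abs_exp]
    have h4 := entry_le D l (orth_nn D l (φ γ) (φ k)) 0 j
    have h5 : wt D l j (φ γ * φ k) - wt D l 0 (φ γ) ≤ D.tw l (φ k) - D.mu (φ (γ * k)) l := by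
      have h6 := wt_le D l hj (φ γ * φ k)
      have h7 := hup γ
      rw [wt_zero]
      rw [map_mul] at h7 ⊢
      linarith
    calc |nn D l (φ γ) (φ k) 0 j| * Real.exp (wt D l j (φ γ * φ k) - wt D l 0 (φ γ))
        ≤ 1 * Real.exp (D.tw l (φ k) - D.mu (φ (γ * k)) l) :=
          mul_le_mul h4 (Real.exp_le_exp.2 h5) (Real.exp_pos _).le zero_le_one
      _ = _ := one_mul _
  -- entries of `n` in the column `0`
  have hn : ∀ i, i ≠ 0 → Tendsto (fun γ => nn D l (φ γ) (φ k) i 0) F (𝓝 0) := by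
    intro i hi
    set C : ℝ := ∑ a, ∑ b, |D.rho l (φ k) a b| with hC
    have h1 : Tendsto (fun γ => C * Real.exp (D.tw l (φ k)⁻¹ - D.mu (φ γ) l)) F (𝓝 0) := by
      have h2 : Tendsto (fun γ => Real.exp (D.tw l (φ k)⁻¹ - D.mu (φ γ) l)) F (𝓝 0) :=
        Real.tendsto_exp_atBot.comp (tendsto_atBot_add_const_left _ _ (tendsto_neg_atTop_atBot.comp hF))
      have h3 := h2.const_mul C
      rwa [mul_zero] at h3
    refine squeeze_zero_norm (fun γ => ?_) h1
    have h2 := mm_eq D l (φ γ) (φ k) i 0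
    have h3 : nn D l (φ γ) (φ k) i 0 = mm D l (φ γ) (φ k) i 0 * Real.exp (wt D l i (φ γ) - wt D l 0 (φ γ * φ k)) := by
      rw [Real.exp_sub, mul_div_assoc', mul_comm (mm D l (φ γ) (φ k) i 0), ← h2, mul_div_cancel_right₀ _ (Real.exp_pos _).ne']
    rw [h3, norm_mul, Real.norm_eq_abs, Real.norm_eq_abs, Real.abs_exp]
    have h4 := mm_le D l (φ γ) (φ k) i 0
    have h5 : wt D l i (φ γ) - wt D l 0 (φ γ * φ k) ≤ D.tw l (φ k)⁻¹ - D.mu (φ γ) l := by
      have h6 := wt_le D l hi (φ γ)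
      have h7 := hdn γ
      rw [wt_zero]
      rw [map_mul] at h7
      linarith
    exact mul_le_mul h4 (Real.exp_le_exp.2 h5) (Real.exp_pos _).le ((abs_nonneg _).trans h4)
  -- squares
  have hn1 : Tendsto (fun γ => nn D l (φ γ) (φ k) 0 0 ^ 2) F (𝓝 1) := by
    have h1 : ∀ γ, nn D l (φ γ) (φ k) 0 0 ^ 2 = 1 - ∑ i ∈ Finset.univ.erase 0, nn D l (φ γ) (φ k) i 0 ^ 2 := fun γ => by
      have h2 := congrFun (congrFun (orth_nn D l (φ γ) (φ k)) 0) 0
      rw [Matrix.mul_apply, Matrix.one_apply_eq, ← Finset.add_sum_erase _ _ (Finset.mem_univ (0 : Fin (D.d l + 1)))] at h2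
      have h3 : ∀ i, (nn D l (φ γ) (φ k))ᵀ 0 i * nn D l (φ γ) (φ k) i 0 = nn D l (φ γ) (φ k) i 0 ^ 2 := fun i => by
        rw [Matrix.transpose_apply, sq]
      simp only [h3] at h2
      linarith
    have h2 : Tendsto (fun γ => 1 - ∑ i ∈ Finset.univ.erase 0, nn D l (φ γ) (φ k) i 0 ^ 2) F (𝓝 (1 - ∑ i ∈
        (Finset.univ.erase 0 : Finset (Fin (D.d l + 1))), (0 : ℝ) ^ 2)) :=
      tendsto_const_nhds.sub (tendsto_finsetSum _ fun i hi => (hn i (Finset.ne_of_mem_erase hi)).pow 2)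
    simp only [ne_eq, OfNat.ofNat_ne_zero, not_false_eq_true, zero_pow, Finset.sum_const_zero, sub_zero] at h2
    exact h2.congr fun γ => (h1 γ).symm
  have hm1 : Tendsto (fun γ => mm D l (φ γ) (φ k) 0 0 ^ 2 - sl D l (φ k) (D.xv l (φ γ))) F (𝓝 0) := by
    have h1 : ∀ γ, mm D l (φ γ) (φ k) 0 0 ^ 2 - sl D l (φ k) (D.xv l (φ γ)) =
        - ∑ j ∈ Finset.univ.erase 0, mm D l (φ γ) (φ k) 0 j ^ 2 := fun γ => by
      rw [← sum_mm, ← Finset.add_sum_erase _ _ (Finset.mem_univ (0 : Fin (D.d l + 1)))]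
      ring
    have h2 : Tendsto (fun γ => - ∑ j ∈ Finset.univ.erase 0, mm D l (φ γ) (φ k) 0 j ^ 2) F (𝓝 (- ∑ j ∈
        (Finset.univ.erase 0 : Finset (Fin (D.d l + 1))), (0 : ℝ) ^ 2)) :=
      (tendsto_finsetSum _ fun j hj => (hm j (Finset.ne_of_mem_erase hj)).pow 2).neg
    simp only [ne_eq, OfNat.ofNat_ne_zero, not_false_eq_true, zero_pow, Finset.sum_const_zero, neg_zero] at h2
    exact h2.congr fun γ => (h1 γ).symm
  obtain ⟨c, hc, hlb⟩ := exists_sl D l (φ k)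
  set S : G → ℝ := fun γ => sl D l (φ k) (D.xv l (φ γ)) with hS
  have hSpos : ∀ γ, 0 < S γ := fun γ => hc.trans_le (hlb (φ γ))
  have h1 : Tendsto (fun γ => (mm D l (φ γ) (φ k) 0 0 ^ 2 - S γ) / S γ) F (𝓝 0) := by
    have h2 := hm1.norm
    rw [norm_zero] at h2
    have h3 : Tendsto (fun γ => ‖mm D l (φ γ) (φ k) 0 0 ^ 2 - S γ‖ / c) F (𝓝 0) := by
      have h4 := h2.div_const c
      rwa [zero_div] at h4
    refine squeeze_zero_norm (fun γ => ?_) h3
    rw [norm_div, Real.norm_of_nonneg (hSpos γ).le]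
    exact div_le_div_of_nonneg_left (norm_nonneg _) hc (hlb (φ γ))
  have h2 : Tendsto (fun γ => mm D l (φ γ) (φ k) 0 0 ^ 2 / S γ) F (𝓝 1) := by
    have h3 := h1.add_const 1
    rw [zero_add] at h3
    refine h3.congr fun γ => ?_
    have := (hSpos γ).ne'
    field_simp
    ring
  have h3 := h2.div hn1 one_ne_zero
  rw [div_one] at h3
  have h4 : Tendsto (fun γ => Real.log (mm D l (φ γ) (φ k) 0 0 ^ 2 / S γ / nn D l (φ γ) (φ k) 0 0 ^ 2) / 2) F (𝓝 0) := by
    have h5 := (Real.continuousAt_log one_ne_zero).tendsto.comp h3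
    rw [Real.log_one] at h5
    have h6 := h5.div_const 2
    rwa [zero_div] at h6
  refine h4.congr' ?_
  filter_upwards [hn1.eventually (lt_mem_nhds (one_pos (α := ℝ)))] with γ h6
  have h8 : mm D l (φ γ) (φ k) 0 0 ^ 2 / S γ / nn D l (φ γ) (φ k) 0 0 ^ 2 =
      Real.exp (D.tw l (φ (γ * k)) - D.tw l (φ γ)) ^ 2 / S γ := by
    have h9 := mm_eq D l (φ γ) (φ k) 0 0
    rw [wt_zero, wt_zero, ← map_mul] at h9
    have h10 : mm D l (φ γ) (φ k) 0 0 = nn D l (φ γ) (φ k) 0 0 * Real.exp (D.tw l (φ (γ * k)) - D.tw l (φ γ)) := by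
      rw [Real.exp_sub, mul_div_assoc', h9, mul_div_cancel_left₀ _ (Real.exp_pos _).ne']
    rw [h10]
    have := (hSpos γ).ne'
    have h11 : nn D l (φ γ) (φ k) 0 0 ≠ 0 := fun h => by
      rw [h] at h6
      norm_num at h6
    field_simp
  rw [h8, Real.log_div (pow_ne_zero _ (Real.exp_pos _).ne') (hSpos γ).ne', Real.log_pow, Real.log_exp]
  unfold bu
  push_cast
  ring

/-- The metric controls the line of the right datum. -/
def UCx (pd : PD G) : Prop := ∀ ε : ℝ, 0 < ε → ∃ δ : ℝ, 0 < δ ∧ ∀ γ γ', pd.d γ γ' < δ →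
  ∀ a b, |D.xv l (φ γ) a * D.xv l (φ γ) b - D.xv l (φ γ') a * D.xv l (φ γ') b| ≤ ε

variable {φ l}

theorem uc_bu {pd : PD G} (hp : UCx D φ l pd) (t : ℝ) (k : G) : UC pd (ch t (bu D φ l k)) := by
  intro ε hε
  obtain ⟨c, hc, hlb⟩ := exists_sl D l (φ k)
  set M : ℝ := ∑ a, ∑ b, |(D.rho l (φ k) * (D.rho l (φ k))ᵀ) a b| with hM
  have hM0 : 0 ≤ M := Finset.sum_nonneg fun j _ => Finset.sum_nonneg fun b _ => abs_nonneg _
  obtain ⟨δ, hδ, h1⟩ := hp (ε * c / ((|t| + 1) * (M + 1))) (by positivity)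
  refine ⟨δ, hδ, fun γ γ' hd => ?_⟩
  have h2 : |sl D l (φ k) (D.xv l (φ γ)) - sl D l (φ k) (D.xv l (φ γ'))| ≤ ε * c / ((|t| + 1) * (M + 1)) * M := by
    unfold sl
    rw [← Finset.sum_sub_distrib, hM, Finset.mul_sum]
    refine (Finset.abs_sum_le_sum_abs _ _).trans (Finset.sum_le_sum fun a _ => ?_)
    rw [← Finset.sum_sub_distrib, Finset.mul_sum]
    refine (Finset.abs_sum_le_sum_abs _ _).trans (Finset.sum_le_sum fun b _ => ?_)
    rw [← sub_mul, abs_mul]
    exact mul_le_mul_of_nonneg_right (h1 γ γ' hd a b) (abs_nonneg _)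
  have hlog : ∀ x y : ℝ, c ≤ x → c ≤ y → |Real.log x - Real.log y| ≤ |x - y| / c := by
    have key : ∀ x y : ℝ, c ≤ x → c ≤ y → Real.log x - Real.log y ≤ |x - y| / c := by
      intro x y hx hy
      have hx0 := hc.trans_le hx
      have hy0 := hc.trans_le hy
      rw [← Real.log_div hx0.ne' hy0.ne']
      refine (Real.log_le_sub_one_of_pos (div_pos hx0 hy0)).trans ?_
      have e : x / y - 1 = (x - y) / y := by field_simp
      rw [e]
      calc (x - y) / y ≤ |x - y| / y := div_le_div_of_nonneg_right (le_abs_self _) hy0.le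
        _ ≤ |x - y| / c := div_le_div_of_nonneg_left (abs_nonneg _) hc hy
    intro x y hx hy
    rw [abs_le]
    have h3 := key y x hy hx
    rw [abs_sub_comm] at h3
    constructor
    · linarith
    · exact key x y hx hy
  have h3 := hlog _ _ (hlb (φ γ)) (hlb (φ γ'))
  refine (norm_exp_sub_le (t * bu D φ l k γ) (t * bu D φ l k γ')).trans ?_
  rw [← mul_sub, abs_mul]
  have h4 : bu D φ l k γ - bu D φ l k γ' = (Real.log (sl D l (φ k) (D.xv l (φ γ))) - Real.log (sl D l (φ k) (D.xv l (φ γ')))) / 2 := by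
    unfold bu
    ring
  rw [h4, abs_div, abs_two]
  have h5 : |Real.log (sl D l (φ k) (D.xv l (φ γ))) - Real.log (sl D l (φ k) (D.xv l (φ γ')))| ≤ ε / (|t| + 1) := by
    refine h3.trans ?_
    rw [div_le_iff₀ hc]
    refine h2.trans ?_
    have h6 : M / (M + 1) ≤ 1 := by
      rw [div_le_one (by positivity)]
      linarith
    calc ε * c / ((|t| + 1) * (M + 1)) * M = ε / (|t| + 1) * c * (M / (M + 1)) := by field_simp
      _ ≤ ε / (|t| + 1) * c * 1 := mul_le_mul_of_nonneg_left h6 (by positivity)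
      _ = _ := mul_one _
  have h6 := abs_nonneg t
  calc |t| * (|Real.log (sl D l (φ k) (D.xv l (φ γ))) - Real.log (sl D l (φ k) (D.xv l (φ γ')))| / 2)
      ≤ |t| * (ε / (|t| + 1) / 2) := by gcongr
    _ = ε * (|t| / (|t| + 1)) / 2 := by field_simp
    _ ≤ ε * 1 / 2 := by
        have h7 : |t| / (|t| + 1) ≤ 1 := by
          rw [div_le_one (by positivity)]
          linarith
        gcongr
    _ ≤ ε := by linarith

/-- **The hypothesis of the scale lemma for `tw`.** -/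
theorem gk_tw {R : Reg G} {pd : PD G} (hR : ∀ n, Tendsto (fun γ => D.mu (φ γ) l) (R.F n) atTop) (hp : UCx D φ l pd) (t : ℝ) :
    Gk R pd (ch t fun γ => D.tw l (φ γ)) (fun k => ch t (bu D φ l k)) where
  one := norm_ch t _
  av k := by
    refine AV.of_pc (C := 1) (fun γ => (norm_ch t _ γ).le) fun ε hε => ?_
    obtain ⟨δ, hδ, h1⟩ := uc_bu D hp t k ε hε
    exact ⟨δ, hδ, fun n => ⟨Set.univ, Filter.univ_mem, fun γ _ γ' _ hd => h1 γ γ' hd⟩⟩
  lim k n := by
    have h1 := tendsto_tw D φ l (hR n) k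
    have h2 : Tendsto (fun γ => Complex.exp (((t * (D.tw l (φ (γ * k)) - D.tw l (φ γ) - bu D φ l k γ) : ℝ) : ℂ) * Complex.I) - 1)
        (R.F n) (𝓝 0) := by
      have hc : Continuous fun x : ℝ => Complex.exp (((t * x : ℝ) : ℂ) * Complex.I) - 1 := by fun_prop
      have h3 := (hc.tendsto 0).comp h1
      simpa [Function.comp_def] using h3
    have h3 := h2.norm
    rw [norm_zero] at h3
    refine squeeze_zero_norm (fun γ => le_of_eq ?_) h3
    have h4 : ch t (fun γ => D.tw l (φ γ)) (γ * k) - ch t (fun γ => D.tw l (φ γ)) γ * ch t (bu D φ l k) γ =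
        (ch t (fun γ => D.tw l (φ γ)) γ * ch t (bu D φ l k) γ) *
        (Complex.exp (((t * (D.tw l (φ (γ * k)) - D.tw l (φ γ) - bu D φ l k γ) : ℝ) : ℂ) * Complex.I) - 1) := by
      unfold ch
      rw [← Complex.exp_add, mul_sub, ← Complex.exp_add, mul_one]
      congr 2
      push_cast
      ring
    rw [h4, norm_mul, norm_mul, norm_ch, norm_ch, one_mul, one_mul]

end Lim

end Pool.Agent.Helper83.FQ
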