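import Pool.Agent.Helper83.FQ.BusD
import Pool.Agent.Helper77.FQ.Cow
import Pool.Agent.Helper95.FQ.Cart

/-!
# Project FQ (MP_0f6f3f_an), layer SC: the Cartan integers

`sc_node`: boundary map at the node `u`, sizes gap by gap, slopes one: the hypothesis of `hC_of_scale` (helper95) at the node `u`. `sc_hC`: with group data for the source and the target and boundary maps at all the nodes: the
hypothesis `hC` of `ae_final`.
-/

set_option autoImplicit false
set_option linter.unusedSectionVars false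

open MeasureTheory Filter Topology Matrix

namespace Pool.Agent.Helper83.FQ

open Pool.Agent.Helper84 Pool.Agent.Helper84.GN Pool.Agent.Helper84.GN.S3 Pool.Agent.Helper84.GN.S3.X
open Pool.Agent.Helper84.NI Pool.Agent.Helper84.GVN Pool.Agent.Helper90.RK
open Pool.Agent.Helper96.RK Pool.Agent.Helper66.FR Pool.Agent.Helper84.FR Pool.Agent.Helper55.FR
open Pool.Agent.Helper78.BM Pool.Agent.Helper82.FQ Pool.Agent.Helper84.GDL
open Pool.Agent.Helper96.SA Pool.Agent.Helper96.TO Pool.Agent.Helper69.SLN Pool.Agent.Helper77.FQ Pool.Agent.Helper25.AE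
  Pool.Agent.Helper95.FQ Pool.Agent.Helper90.OB

variable {L : Type} [LieRing L] [LieAlgebra ℝ L] {N : ℕ} {θ : L ≃ₗ⁅ℝ⁆ L} {b : Module.Basis (Fin N) ℝ L}
  {𝔾 : Subgroup (GL (Fin N) ℝ)} {A : Submodule ℝ L} {τ : Module.Dual ℝ A ≃ₗ[ℝ] A} {ι : Type} [Fintype ι] [DecidableEq ι]
  {al : ι → Module.Dual ℝ A}

variable {X G Λ : Type} [MeasurableSpace X] [MulAction 𝔾 X] [MeasurableConstSMul 𝔾 X] [Group G] [Group Λ] [Countable Λ]
  {μ : Measure X} [SMulInvariantMeasure 𝔾 X μ] [IsProbabilityMeasure μ] {a : Cocy 𝔾 X Λ} {E : Emb Λ G}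

/-- **The hypothesis of `hC_of_scale` at the node `u`.** -/
theorem sc_node [LieAlgebra.IsSimple ℝ L] (s : SD θ b A τ al) (hG : IsAdj b 𝔾) {W : ι → A}
    (hW : ∀ i j, al i (W j) = if i = j then 1 else 0) (hW' : ∀ H : A, H = ∑ i, al i H • W i) {g1 : 𝔾 → ι → ℝ}
    (hg1 : ∀ c : ι → ℝ, (∀ i, 0 ≤ c i) → g1 (eaG hG W c) = c) (u : ι) {R : Reg G} {pd : PD G}
    (B : BMap μ a E R pd fun n : ℕ => eaG hG W (Pi.single u (n : ℝ))) (hp : B.p = 1) (hP : PLf R pd)
    (hE : ErgU μ a E (Ctr fun n : ℕ => eaG hG W (Pi.single u (n : ℝ))))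
    (h3 : Tendsto (fun g : 𝔾 => μ {x | a.a g x ≠ 1}) (𝓝 1) (𝓝 0))
    {g2 : G → ι → ℝ} {f : ι → ℝ → ℝ} (hs : Sizes μ a E g1 g2 f) {D : ℝ} (hf : ∀ i t, 0 ≤ t → |f i t - t| ≤ D)
    (β : ι → ℝ) (hGk : ∀ t : ℝ, ∃ g, Gk R pd (fun γ => Complex.exp (((t * ∑ i, β i * g2 γ i : ℝ) : ℂ) * Complex.I)) g) :
    ∃ (m : ℕ → ℝ) (C : ℝ), ∀ v : A, (∃ r : {k : ι // k ≠ u} → ℝ, v = ∑ k, r k • τ (al k)) → (∀ i, i ≠ u → 0 ≤ al i v) →
      ∀ᶠ n : ℕ in (hyperfilter ℕ : Filter ℕ), |∑ i, β i * f i (al i v + if i = u then (n : ℝ) else 0) - m n| ≤ C := by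
  set V : AddSubgroup A := { carrier := {v | ∃ r : {k : ι // k ≠ u} → ℝ, v = ∑ k, r k • τ (al k)}
                             add_mem' := by
                              rintro x y ⟨r, rfl⟩ ⟨r', rfl⟩
                              refine ⟨r + r', ?_⟩
                              rw [← Finset.sum_add_distrib]
                              exact Finset.sum_congr rfl fun k _ => by rw [Pi.add_apply, add_smul]
                             zero_mem' := ⟨0, by simp⟩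
                             neg_mem' := by
                              rintro x ⟨r, rfl⟩
                              refine ⟨-r, ?_⟩
                              rw [← Finset.sum_neg_distrib]
                              exact Finset.sum_congr rfl fun k _ => by rw [Pi.neg_apply, neg_smul] } with hV
  have hCS : CS b 𝔾 (W u) (cen fun n : ℕ => eaG hG W (Pi.single u (n : ℝ))) := fun g hg =>
    mem_cen.2 fun n => (eaG_single_comm hG W u hg (n : ℝ)).symm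
  obtain ⟨m, C, h⟩ := scale_sizes B hp hP hE h3 hs hf β hGk V (fun i v => al i v) (fun i x y => map_add _ _ _) u
    (fun c => by
      obtain ⟨r, hr⟩ := exists_val s u fun _ => c
      exact ⟨_, ⟨r, rfl⟩, hr⟩)
    (fun v hv hv0 => by
      obtain ⟨q, hq, hqe⟩ := exists_comm s hG hW hW' u hCS hv
      refine ⟨q, hq, ?_⟩
      filter_upwards [eventually_chamber u hv0] with n hn i
      rw [hqe, eaG_single_mul hG s.hA, hg1 _ hn])
  exact ⟨m, C, fun v hv hv0 => h v hv hv0⟩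

variable {L' : Type} [LieRing L'] [LieAlgebra ℝ L'] {N' : ℕ} {θ' : L' ≃ₗ⁅ℝ⁆ L'} {b' : Module.Basis (Fin N') ℝ L'}
  {A' : Submodule ℝ L'} {τ' : Module.Dual ℝ A' ≃ₗ[ℝ] A'} {al' : ι → Module.Dual ℝ A'}

variable {ℍ : Type} [Group ℍ] [TopologicalSpace ℍ] [IsTopologicalGroup ℍ]

/-- **The Cartan integers**: group data `D'` for the target with `top u` a multiple of the fundamental weight of the node `u`. -/
theorem sc_hC [LieAlgebra.IsSimple ℝ L] (s : SD θ b A τ al) (s' : SD θ' b' A' τ' al') (hG : IsAdj b 𝔾) {W : ι → A}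
    (hW : ∀ i j, al i (W j) = if i = j then 1 else 0) (hW' : ∀ H : A, H = ∑ i, al i H • W i) {g1 : 𝔾 → ι → ℝ}
    (hg1 : ∀ c : ι → ℝ, (∀ i, 0 ≤ c i) → g1 (eaG hG W c) = c)
    (D' : GD ℍ ι) (hβ : ∀ u k, k ≠ u → ∑ i, D'.top u i * al' i (τ' (al' k)) = 0) (hβ0 : ∀ u, ∑ i, D'.top u i * al' i (τ' (al' u)) ≠ 0)
    (φ : G →* ℍ) {R : ι → Reg G} {pd : ι → PD G} (hR : ∀ u n, Tendsto (fun γ => D'.mu (φ γ) u) ((R u).F n) atTop)
    (hpd : ∀ u, UCx D' φ u (pd u)) (B : ∀ u, BMap μ a E (R u) (pd u) fun n : ℕ => eaG hG W (Pi.single u (n : ℝ)))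
    (hp : ∀ u, (B u).p = 1) (hP : ∀ u, PLf (R u) (pd u)) (hE : ∀ u, ErgU μ a E (Ctr fun n : ℕ => eaG hG W (Pi.single u (n : ℝ))))
    (h3 : Tendsto (fun g : 𝔾 => μ {x | a.a g x ≠ 1}) (𝓝 1) (𝓝 0))
    {f : ι → ℝ → ℝ} (hs : Sizes μ a E g1 (fun γ => D'.mu (φ γ)) f) {C : ℝ} (hf : ∀ i t, 0 ≤ t → |f i t - t| ≤ C) :
    ∀ i j, al j (τ (al i)) * al' i (τ' (al' i)) = al' j (τ' (al' i)) * al i (τ (al i)) := by
  refine hC_of_scale s s' f C hf D'.top hβ hβ0 fun u => ⟨hyperfilter ℕ, inferInstance, Nat.hyperfilter_le_atTop, ?_⟩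
  exact sc_node s hG hW hW' hg1 u (B u) (hp u) (hP u) (hE u) h3 hs hf (D'.top u) fun t => ⟨_, gk_tw D' (hR u) (hpd u) t⟩

end Pool.Agent.Helper83.FQ
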