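import Pool.Agent.Helper78.BM.Phi

/-!
# Project FQ (MP_0f6f3f_an), layer SC: the scale operator

`B : BMap μ a E R pd b` a boundary map, `f : G → ℂ` of modulus one such that `f (γ k) / f γ` is uniformly continuous at infinity for every `k` (`f = exp(i t ω)`, `ω` a weight of the Cartan projection). Then `F = B.Ph f`
satisfies `W_k F = F Ph(u_k) W_k`, so `F* F` and `(V_s F V_s⁻¹) F*` (`s` in the centraliser of `b`) commute with `xE`, `W_k` and the contracted `V_q`: they are scalars. So `V_s F V_s⁻¹ = χ(s) F` with a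
character `χ`, which is trivial on products of commutators.
-/

set_option autoImplicit false
set_option linter.unusedSectionVars false

open MeasureTheory Filter Topology

namespace Pool.Agent.Helper83.FQ

open Pool.Agent.Helper84 Pool.Agent.Helper84.GN Pool.Agent.Helper84.GN.S3 Pool.Agent.Helper84.GN.S3.X
open Pool.Agent.Helper84.NI Pool.Agent.Helper84.GVN Pool.Agent.Helper90.RK
open Pool.Agent.Helper96.RK Pool.Agent.Helper66.FR Pool.Agent.Helper84.FR Pool.Agent.Helper55.FR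
open Pool.Agent.Helper78.BM

variable {G1 X G Λ : Type} [Group G1] [TopologicalSpace G1] [IsTopologicalGroup G1] [MeasurableSpace X] [MulAction G1 X]
  [MeasurableConstSMul G1 X] [Group G] [Group Λ] [Countable Λ] {μ : Measure X} [SMulInvariantMeasure G1 X μ]
  [IsProbabilityMeasure μ] {a : Cocy G1 X Λ} {E : Emb Λ G} {R : Reg G} {pd : PD G} {b : ℕ → G1}

theorem Vq_Wk (q : G1) (k : G) (φ : XL μ (L2 G)) : Vq μ a E q (Wk μ k φ) = Wk μ k (Vq μ a E q φ) :=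
  (cl_vg a (A0 := jjR E) (A1 := jjR E)
    (T := ((lamU k).toContinuousLinearEquiv : L2 G →L[ℂ] L2 G))
    (fun l v => ((E.conj.comm l).jjU_lam k v).symm) q φ).symm

/-- Contracted elements are normalised by the centraliser. -/
theorem ctr_conj {s q : G1} (hs : s ∈ cen b) (hq : q ∈ Ctr b) : s⁻¹ * q * s ∈ Ctr b := by
  have h1 : Tendsto (fun n => s⁻¹ * (b n * q * (b n)⁻¹) * s) (hyperfilter ℕ : Filter ℕ) (𝓝 (s⁻¹ * 1 * s)) :=
    ((tendsto_const_nhds.mul hq).mul tendsto_const_nhds)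
  rw [mul_one, inv_mul_cancel] at h1
  refine h1.congr fun n => ?_
  have h2 : b n * s = s * b n := mem_cen.1 hs n
  have h3 : b n * s⁻¹ = s⁻¹ * b n := by
    rw [eq_inv_mul_iff_mul_eq, ← mul_assoc, ← h2, mul_assoc, mul_inv_cancel, mul_one]
  have h4 : s * (b n)⁻¹ = (b n)⁻¹ * s := by
    rw [eq_inv_mul_iff_mul_eq, ← mul_assoc, h2, mul_assoc, mul_inv_cancel, mul_one]
  calc s⁻¹ * (b n * q * (b n)⁻¹) * s = (s⁻¹ * b n) * q * ((b n)⁻¹ * s) := by group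
    _ = (b n * s⁻¹) * q * (s * (b n)⁻¹) := by rw [h3, h4]
    _ = b n * (s⁻¹ * q * s) * (b n)⁻¹ := by group

/-- A function of modulus one whose translates are, up to a uniformly continuous factor, the function itself. -/
structure Scl (R : Reg G) (pd : PD G) (f : G → ℂ) : Prop where
  one : ∀ γ, ‖f γ‖ = 1
  av : ∀ k : G, AV R pd fun γ => f (γ * k) * (starRingEnd ℂ) (f γ)

namespace Scl

variable {f : G → ℂ}

theorem mul_conj (hf : Scl R pd f) (γ : G) : f γ * (starRingEnd ℂ) (f γ) = 1 := by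
  rw [Complex.mul_conj, Complex.normSq_eq_norm_sq, hf.one]
  simp

theorem conj_mul (hf : Scl R pd f) (γ : G) : (starRingEnd ℂ) (f γ) * f γ = 1 := by
  rw [mul_comm, hf.mul_conj]

theorem conj (hf : Scl R pd f) : Scl R pd fun γ => (starRingEnd ℂ) (f γ) where
  one γ := by rw [RCLike.norm_conj, hf.one]
  av k := by
    have h := (hf.av k).conj
    refine Eq.subst (motive := fun F => AV R pd F) (funext fun γ => ?_) h
    rw [map_mul]

theorem le (hf : Scl R pd f) (γ : G) : ‖f γ‖ ≤ 1 := (hf.one γ).le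

end Scl

variable (B : BMap μ a E R pd b)

theorem Ph_mul' {f g : G → ℂ} {C : ℝ} (hC : ∀ γ, ‖f γ‖ ≤ C) (hg : AV R pd g) (φ : XL μ (L2 G)) :
    B.Ph g (B.Ph f φ) = B.Ph (fun γ => g γ * f γ) φ := by
  obtain ⟨D, hD⟩ := hg.bdd
  refine B.T_inj ?_
  rw [B.T_Ph hg, B.Ph_apply, B.Ph_apply, map_smul, map_smul, map_smul]
  congr 1
  have h1 := loc_Mf B.loc hg (Mf μ R f (Tb μ a E R b φ))
  rw [← Mf_mul hD hC]
  exact h1.symm

variable {f : G → ℂ}

/-- `u_k`. -/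
noncomputable def uk (f : G → ℂ) (k : G) : G → ℂ := fun γ => f (γ * k) * (starRingEnd ℂ) (f γ)

/-- The complex conjugate function. -/
noncomputable def cj (f : G → ℂ) : G → ℂ := fun γ => (starRingEnd ℂ) (f γ)

namespace Scl

theorem cj (hf : Scl R pd f) : Scl R pd (cj f) := hf.conj

theorem auk (hf : Scl R pd f) (k : G) : AV R pd (uk f k) := hf.av k

theorem auk' (hf : Scl R pd f) (k : G) : AV R pd (uk (FQ.cj f) k) := hf.cj.av k

theorem uk_mul (hf : Scl R pd f) (k γ : G) : uk f k γ * f γ = f (γ * k) := by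
  unfold uk
  rw [mul_assoc, hf.conj_mul, mul_one]

theorem norm_uk (hf : Scl R pd f) (k γ : G) : ‖uk f k γ‖ ≤ 1 := by
  unfold uk
  rw [norm_mul, RCLike.norm_conj, hf.one, hf.one, mul_one]

theorem uk_cj (hf : Scl R pd f) (k γ : G) : uk (FQ.cj f) k γ * uk f k γ = 1 := by
  unfold uk FQ.cj
  rw [Complex.conj_conj]
  calc (starRingEnd ℂ) (f (γ * k)) * f γ * (f (γ * k) * (starRingEnd ℂ) (f γ))
      = ((starRingEnd ℂ) (f (γ * k)) * f (γ * k)) * (f γ * (starRingEnd ℂ) (f γ)) := by ring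
    _ = 1 := by rw [hf.conj_mul, hf.mul_conj, mul_one]

end Scl

/-- The basic relation: `W_k F = F U_k W_k`. -/
theorem W_Ph (hf : Scl R pd f) (k : G) (φ : XL μ (L2 G)) :
    Wk μ k (B.Ph f φ) = B.Ph f (B.Ph (uk f k) (Wk μ k φ)) := by
  rw [← B.Ph_W hf.le, B.Ph_mul hf.le (hf.auk k)]
  congr 2
  funext γ
  rw [mul_comm, hf.uk_mul]

theorem U_Ph (hf : Scl R pd f) {g : G → ℂ} {C : ℝ} (hg : ∀ γ, ‖g γ‖ ≤ C) (k : G) (φ : XL μ (L2 G)) :
    B.Ph (uk f k) (B.Ph g φ) = B.Ph g (B.Ph (uk f k) φ) := by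
  rw [Ph_mul' B hg (hf.auk k), B.Ph_mul hg (hf.auk k)]
  congr 2
  funext γ
  exact mul_comm _ _

theorem UU (hf : Scl R pd f) (k : G) (φ : XL μ (L2 G)) :
    B.Ph (uk f k) (B.Ph (uk (cj f) k) φ) = φ := by
  rw [B.Ph_mul (hf.norm_uk k) (hf.auk' k)]
  have h : (fun γ => uk f k γ * uk (cj f) k γ) = fun _ => (1 : ℂ) := by
    funext γ
    rw [mul_comm, hf.uk_cj]
  rw [h, B.Ph_const, one_smul]

/-- Two operators with the same relations: `A F*` commutes with `W_k`. -/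
theorem W_comm (hf : Scl R pd f) {A : XL μ (L2 G) → XL μ (L2 G)} (k : G)
    (hA : ∀ φ, Wk μ k (A φ) = A (B.Ph (uk f k) (Wk μ k φ))) (φ : XL μ (L2 G)) :
    Wk μ k (A (B.Ph (cj f) φ)) = A (B.Ph (cj f) (Wk μ k φ)) := by
  rw [hA, W_Ph B hf.cj, U_Ph B hf hf.cj.le, UU B hf]

/-- The operator `V_s F V_s⁻¹`. -/
noncomputable def Fs (f : G → ℂ) (s : G1) : XL μ (L2 G) →L[ℂ] XL μ (L2 G) :=
  (Vq μ a E s).comp ((B.Ph f).comp (Vq μ a E s⁻¹))

theorem Fs_apply (f : G → ℂ) (s : G1) (φ : XL μ (L2 G)) : Fs B f s φ = Vq μ a E s (B.Ph f (Vq μ a E s⁻¹ φ)) := rfl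

theorem W_Fs (hP : PLf R pd) (hf : Scl R pd f) {s : G1} (hs : s ∈ cen b) (k : G) (φ : XL μ (L2 G)) :
    Wk μ k (Fs B f s φ) = Fs B f s (B.Ph (uk f k) (Wk μ k φ)) := by
  have h1 : Vq μ a E s⁻¹ (B.Ph (uk f k) (Wk μ k φ)) = B.Ph (uk f k) (Vq μ a E s⁻¹ (Wk μ k φ)) :=
    (B.Ph_cen hP (hf.auk k) ⟨s⁻¹, inv_mem hs⟩ _).symm
  rw [Fs_apply, Fs_apply, ← Vq_Wk, W_Ph B hf, h1, Vq_Wk]

theorem xE_Fs {s : G1} {D : Set X} (hD : MeasurableSet D) (φ : XL μ (L2 G)) :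
    Fs B f s (xE μ (L2 G) D φ) = xE μ (L2 G) D (Fs B f s φ) := by
  have hD' : MeasurableSet ((fun x => (s⁻¹)⁻¹ • x) ⁻¹' D) := (measurable_const_smul _) hD
  rw [Fs_apply, Fs_apply, vg_xE a (jjR E) s⁻¹ hD, B.Ph_xE _ hD', vg_xE a (jjR E) s hD']
  congr 2
  ext x
  simp

theorem V_Fs (h3 : Tendsto (fun g : G1 => μ {x | a.a g x ≠ 1}) (𝓝 1) (𝓝 0)) {s q : G1} (hs : s ∈ cen b)
    (hq : q ∈ Ctr b) (φ : XL μ (L2 G)) : Fs B f s (Vq μ a E q φ) = Vq μ a E q (Fs B f s φ) := by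
  have h1 : Vq μ a E s⁻¹ (Vq μ a E q φ) = Vq μ a E (s⁻¹ * q * s) (Vq μ a E s⁻¹ φ) := by
    rw [← vg_mul, ← vg_mul]
    congr 1
    group
  rw [Fs_apply, Fs_apply, h1, B.Ph_contr h3 f (ctr_conj hs hq), ← vg_mul, ← vg_mul]
  congr 1
  group

/-- `(V_s F V_s⁻¹) F*` is a scalar. -/
theorem exists_z (hE : ErgU μ a E (Ctr b)) (h3 : Tendsto (fun g : G1 => μ {x | a.a g x ≠ 1}) (𝓝 1) (𝓝 0))
    (hP : PLf R pd) (hf : Scl R pd f) {s : G1} (hs : s ∈ cen b) :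
    ∃ z : ℂ, ∀ φ, Fs B f s (B.Ph (cj f) φ) = z • φ := by
  refine hE ((Fs B f s).comp (B.Ph (cj f))) (fun D hD φ => ?_) (fun k φ => ?_) (fun q hq φ => ?_)
  · change Fs B f s (B.Ph (cj f) (xE μ (L2 G) D φ)) = xE μ (L2 G) D (Fs B f s (B.Ph (cj f) φ))
    rw [B.Ph_xE _ hD, xE_Fs B hD]
  · exact (W_comm B hf k (W_Fs B hP hf hs k) φ).symm
  · change Fs B f s (B.Ph (cj f) (Vq μ a E q φ)) = Vq μ a E q (Fs B f s (B.Ph (cj f) φ))
    rw [B.Ph_contr h3 _ hq, V_Fs B h3 hs hq]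

theorem Fs_one (φ : XL μ (L2 G)) : Fs B f 1 φ = B.Ph f φ := by
  rw [Fs_apply, inv_one, vg_one, vg_one]

/-- `F F*` and `F* F` are the same scalar. -/
theorem exists_c (hE : ErgU μ a E (Ctr b)) (h3 : Tendsto (fun g : G1 => μ {x | a.a g x ≠ 1}) (𝓝 1) (𝓝 0))
    (hP : PLf R pd) (hf : Scl R pd f) (hne : B.Ph f ≠ 0) :
    ∃ c : ℂ, c ≠ 0 ∧ (∀ φ, B.Ph f (B.Ph (cj f) φ) = c • φ) ∧ ∀ φ, B.Ph (cj f) (B.Ph f φ) = c • φ := by
  obtain ⟨c, hc⟩ := exists_z B hE h3 hP hf (one_mem (cen b))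
  obtain ⟨c', hc'⟩ := exists_z B hE h3 hP hf.cj (one_mem (cen b))
  have hcc : cj (cj f) = f := by
    funext γ
    unfold cj
    rw [Complex.conj_conj]
  rw [hcc] at hc'
  simp only [Fs_one] at hc hc'
  obtain ⟨φ, hφ⟩ : ∃ φ, B.Ph f φ ≠ 0 := by
    by_contra h
    push Not at h
    exact hne (ContinuousLinearMap.ext h)
  have h1 : c • B.Ph f φ = c' • B.Ph f φ := by
    rw [← hc, hc', map_smul]
  have h2 : c = c' := by
    by_contra h
    have h3 : (c - c') • B.Ph f φ = 0 := by rw [sub_smul, h1, sub_self]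
    rcases smul_eq_zero.1 h3 with h4 | h4
    · exact h (sub_eq_zero.1 h4)
    · exact hφ h4
  refine ⟨c, ?_, hc, fun ψ => by rw [hc', h2]⟩
  rintro rfl
  have h3 : inner ℂ (B.Ph f φ) (B.Ph f φ) = (0 : ℂ) := by
    rw [B.Ph_adj hf.le]
    change inner ℂ φ (B.Ph (cj f) (B.Ph f φ)) = (0 : ℂ)
    rw [hc', ← h2, zero_smul, inner_zero_right]
  exact hφ (inner_self_eq_zero.1 h3)

/-- **The scale operator is multiplied by a character under the centraliser.** -/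
theorem exists_chi (hE : ErgU μ a E (Ctr b)) (h3 : Tendsto (fun g : G1 => μ {x | a.a g x ≠ 1}) (𝓝 1) (𝓝 0))
    (hP : PLf R pd) (hf : Scl R pd f) (hne : B.Ph f ≠ 0) :
    ∃ χ : cen b →* ℂ, ∀ (s : cen b) φ, Vq μ a E (s : G1) (B.Ph f φ) = χ s • B.Ph f (Vq μ a E (s : G1) φ) := by
  obtain ⟨c, hc0, hc, hc'⟩ := exists_c B hE h3 hP hf hne
  have h1 : ∀ s : cen b, ∃ z : ℂ, ∀ φ, Vq μ a E (s : G1) (B.Ph f φ) = z • B.Ph f (Vq μ a E (s : G1) φ) := by
    intro s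
    obtain ⟨z, hz⟩ := exists_z B hE h3 hP hf s.2
    refine ⟨z * c⁻¹, fun φ => ?_⟩
    have h2 := hz (B.Ph f (Vq μ a E (s : G1) φ))
    rw [hc', map_smul, Fs_apply, Vq_inv] at h2
    rw [mul_comm, mul_smul, ← h2, smul_smul, inv_mul_cancel₀ hc0, one_smul]
  choose χ hχ using h1
  obtain ⟨φ, hφ⟩ : ∃ φ, B.Ph f φ ≠ 0 := by
    by_contra h
    push Not at h
    exact hne (ContinuousLinearMap.ext h)
  have huniq : ∀ z w : ℂ, z • B.Ph f φ = w • B.Ph f φ → z = w := by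
    intro z w h
    by_contra h'
    have h3 : (z - w) • B.Ph f φ = 0 := by rw [sub_smul, h, sub_self]
    rcases smul_eq_zero.1 h3 with h4 | h4
    · exact h' (sub_eq_zero.1 h4)
    · exact hφ h4
  refine ⟨⟨⟨χ, ?_⟩, ?_⟩, hχ⟩
  · refine huniq _ _ ?_
    have h := hχ 1 φ
    rw [OneMemClass.coe_one, vg_one, vg_one] at h
    rw [← h, one_smul]
  · intro s t
    refine huniq _ _ ?_
    have e1 : (χ (s * t)) • B.Ph f φ = Vq μ a E ((s * t : cen b) : G1) (B.Ph f (Vq μ a E ((s * t : cen b) : G1)⁻¹ φ)) := by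
      rw [hχ, Vq_inv']
    have e2 : Vq μ a E (t : G1) (B.Ph f (Vq μ a E ((s * t : cen b) : G1)⁻¹ φ)) =
        χ t • B.Ph f (Vq μ a E (s : G1)⁻¹ φ) := by
      rw [hχ]
      congr 2
      rw [← vg_mul]
      congr 1
      rw [Subgroup.coe_mul]
      group
    have e3 : Vq μ a E ((s * t : cen b) : G1) (B.Ph f (Vq μ a E ((s * t : cen b) : G1)⁻¹ φ)) =
        Vq μ a E (s : G1) (Vq μ a E (t : G1) (B.Ph f (Vq μ a E ((s * t : cen b) : G1)⁻¹ φ))) := by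
      rw [← vg_mul, Subgroup.coe_mul]
    rw [e1, e3, e2, map_smul, hχ, Vq_inv', smul_smul, mul_comm]

end Pool.Agent.Helper83.FQ
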